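import Pool.Agent.R638.DD.FIN

set_option autoImplicit false

namespace Pool.Agent.R638.DD

open Set Topology Filter

theorem isDen_of (h : StmThird) {X : Type} [TopologicalSpace X] (hX : IsDendrite X) : IsDen X :=
  ⟨hX.toIsPeano, h X hX⟩

theorem isDendrite_of (h : StmNoc) {X : Type} [TopologicalSpace X] (hX : IsDen X) :
    IsDendrite X :=
  ⟨hX.toIsPeano, h X hX.third⟩

theorem t_Main (h1 : StmMain') (h2 : StmThird) (h3 : StmNoc) : StmMain := by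
  intro k hk Z _ Y₁ Y₂ p hY₁ hY₂ hp
  obtain ⟨D₁, i₁, f₁, hD₁, hc₁, hr₁, hn₁⟩ := hY₁
  obtain ⟨D₂, i₂, f₂, hD₂, hc₂, hr₂, hn₂⟩ := hY₂
  obtain ⟨D, i, f, hD, hc, hr, hn⟩ := h1 k hk Z Y₁ Y₂ p ⟨D₁, i₁, f₁, isDen_of h2 hD₁, hc₁, hr₁, hn₁⟩
    ⟨D₂, i₂, f₂, isDen_of h2 hD₂, hc₂, hr₂, hn₂⟩ hp
  exact ⟨D, i, f, isDendrite_of h3 hD, hc, hr, hn⟩

end Pool.Agent.R638.DD
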