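import Pool.Agent.R638.DD.Stm

set_option autoImplicit false

/-! DD-COMP: components of the complement of a point (helper656). -/

namespace Pool.Agent.R638.DD

open Set Topology Filter

namespace CompAux

variable {X : Type} [TopologicalSpace X]

lemma preconn_compl [PreconnectedSpace X] {W : Set X} {c : X} (hWo : IsOpen W) (hcW : c ∉ W)
    (hcl : IsClosed (W ∪ {c})) : IsPreconnected Wᶜ := by
  rw [isPreconnected_closed_iff]
  have key : ∀ t t' : Set X, IsClosed t → IsClosed t' → Wᶜ ⊆ t ∪ t' → c ∈ t →
      (Wᶜ ∩ t').Nonempty → (Wᶜ ∩ (t ∩ t')).Nonempty := by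
    intro t t' ht ht' hsub hct hne
    by_contra hemp
    rw [not_nonempty_iff_eq_empty] at hemp
    have hno : ∀ z, z ∉ W → z ∈ t → z ∈ t' → False := by
      intro z h1 h2 h3
      have : z ∈ Wᶜ ∩ (t ∩ t') := ⟨h1, h2, h3⟩
      rw [hemp] at this
      exact this
    have hR1 : IsClosed (Wᶜ ∩ t') := hWo.isClosed_compl.inter ht'
    have hR2 : (Wᶜ ∩ t')ᶜ = (W ∪ {c}) ∪ (Wᶜ ∩ t) := by
      ext z
      simp only [mem_compl_iff, mem_inter_iff, mem_union, mem_singleton_iff]
      constructor
      · intro h
        by_cases hz : z ∈ W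
        · exact Or.inl (Or.inl hz)
        · have h4 : z ∉ t' := fun h5 => h ⟨hz, h5⟩
          rcases hsub hz with h5 | h5
          · exact Or.inr ⟨hz, h5⟩
          · exact absurd h5 h4
      · rintro ((h | h) | h)
        · exact fun h5 => h5.1 h
        · rw [h]
          exact fun h5 => hno c h5.1 hct h5.2
        · exact fun h5 => hno z h.1 h.2 h5.2
    have hR3 : IsOpen (Wᶜ ∩ t') := by
      rw [← isClosed_compl_iff, hR2]
      exact hcl.union (hWo.isClosed_compl.inter ht)
    have hR4 : IsClopen (Wᶜ ∩ t') := ⟨hR1, hR3⟩
    rcases isClopen_iff.1 hR4 with h | h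
    · rw [h] at hne
      exact Set.not_nonempty_empty hne
    · have : c ∈ Wᶜ ∩ t' := by rw [h]; exact mem_univ c
      exact hno c this.1 hct this.2
  intro t t' ht ht' hsub h1 h2
  rcases hsub hcW with h | h
  · exact key t t' ht ht' hsub h h2
  · have := key t' t ht' ht (by rwa [union_comm]) h h1
    rwa [inter_comm t' t] at this

end CompAux

theorem t_Comp : StmComp := by
  intro X _ hX c x hxc
  haveI := hX.compact
  haveI := hX.metrizable
  haveI := hX.connected
  haveI := hX.locConn
  set W := connectedComponentIn ({c}ᶜ : Set X) x with hW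
  have hWo : IsOpen W := (isClosed_singleton.isOpen_compl).connectedComponentIn
  have hWsub : W ⊆ {c}ᶜ := connectedComponentIn_subset _ _
  have hcW : c ∉ W := fun h => hWsub h rfl
  have hxW : x ∈ W := mem_connectedComponentIn hxc
  have hWc : IsPreconnected W := isPreconnected_connectedComponentIn
  have hclo : closure W ⊆ W ∪ {c} := by
    intro y hy
    by_cases hyc : y = c
    · exact Or.inr hyc
    · left
      have hW'o : IsOpen (connectedComponentIn ({c}ᶜ : Set X) y) :=
        (isClosed_singleton.isOpen_compl).connectedComponentIn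
      have hyW' : y ∈ connectedComponentIn ({c}ᶜ : Set X) y := mem_connectedComponentIn hyc
      obtain ⟨z, hz', hz⟩ := mem_closure_iff.1 hy _ hW'o hyW'
      have e1 := connectedComponentIn_eq hz
      have e2 := connectedComponentIn_eq hz'
      rw [hW, e1, ← e2]
      exact hyW'
  have hcl : IsClosed (W ∪ {c}) := by
    refine isClosed_of_closure_subset ?_
    rw [closure_union, closure_singleton]
    exact union_subset hclo subset_union_right
  have hcc : c ∈ closure W := by
    by_contra h
    have h1 : IsClosed W := by
      refine isClosed_of_closure_subset fun y hy => ?_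
      rcases hclo hy with h2 | h2
      · exact h2
      · rw [mem_singleton_iff] at h2
        rw [h2] at hy
        exact absurd hy h
    have h2 : IsClopen W := ⟨h1, hWo⟩
    rcases isClopen_iff.1 h2 with h3 | h3
    · rw [h3] at hxW
      exact hxW
    · exact hcW (h3 ▸ mem_univ c)
  refine ⟨hWo, ⟨hWo.isClosed_compl, hcl, ?_, ?_⟩, CompAux.preconn_compl hWo hcW hcl, ?_⟩
  · rw [← union_assoc, compl_union_self, univ_union]
  · ext z
    simp only [mem_inter_iff, mem_compl_iff, mem_union, mem_singleton_iff]
    constructor
    · rintro ⟨h1, h2 | h2⟩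
      · exact absurd h2 h1
      · exact h2
    · rintro rfl
      exact ⟨hcW, Or.inr rfl⟩
  · exact hWc.subset_closure subset_union_left (union_subset subset_closure
      (singleton_subset_iff.2 hcc))

end Pool.Agent.R638.DD
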