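import Pool.Agent.R638.DD.Defs

set_option autoImplicit false

/-! Project DD: statements of the pieces. Proofs in notes.md. -/

namespace Pool.Agent.R638.DD

open Set Topology Filter

/-- CUT (a): a side of a cut meets a connected set in a connected set. -/
def StmMeet : Prop :=
  ∀ (X : Type) [TopologicalSpace X] (A B : Set X) (c : X), Cut A B c →
    ∀ C : Set X, IsPreconnected C → IsPreconnected (C ∩ A)

/-- CUT (b): a side of a cut of a dendrite is a dendrite. -/
def StmCut : Prop :=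
  ∀ (X : Type) [TopologicalSpace X] (A B : Set X) (c : X), IsDen X → Cut A B c → IsDen ↥A

/-- COMP: the component `W` of `x` in the complement of the point `c`. -/
def StmComp : Prop :=
  ∀ (X : Type) [TopologicalSpace X], IsPeano X → ∀ c x : X, x ≠ c →
    IsOpen (connectedComponentIn {c}ᶜ x) ∧
    Cut (connectedComponentIn {c}ᶜ x)ᶜ (connectedComponentIn {c}ᶜ x ∪ {c}) c ∧
    IsPreconnected (connectedComponentIn {c}ᶜ x)ᶜ ∧
    IsPreconnected (connectedComponentIn {c}ᶜ x ∪ {c})

/-- SHR: a compact subset of an open connected set lies in a closed connected subset. -/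
def StmShr : Prop :=
  ∀ (X : Type) [TopologicalSpace X], IsPeano X → ∀ W : Set X, IsOpen W → IsPreconnected W →
    ∀ C : Set X, C ⊆ W → IsCompact C → ∃ K : Set X, K ⊆ W ∧ IsClosed K ∧ IsPreconnected K ∧ C ⊆ K

/-- UNC: uncountably many points separate two given points. -/
def StmUnc : Prop :=
  ∀ (X : Type) [TopologicalSpace X], IsDen X → ∀ a b : X, a ≠ b → ∀ S : Set X, S.Countable →
    ∃ c ∈ Btw a b, c ∉ S

/-- GLUE: attaching countably many dendrites to a dendrite gives a dendrite. -/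
def StmGlue : Prop :=
  ∀ (ι Q : Type) (P : ι → Type) [Countable ι] [TopologicalSpace Q]
    [∀ i, TopologicalSpace (P i)] (x : ∀ i, P i) (e : ι → Q),
    IsDen Q → (∀ i, IsDen (P i)) → IsDen (Glue x e)

/-- GMAP: continuity of the glued map. -/
def StmGMap : Prop :=
  ∀ (ι Q Y : Type) (P : ι → Type) [TopologicalSpace Q] [∀ i, TopologicalSpace (P i)]
    [∀ i, T2Space (P i)] [MetricSpace Y] (x : ∀ i, P i) (e : ι → Q)
    (g : Q → Y) (h : ∀ i, P i → Y), Continuous g → (∀ i, Continuous (h i)) →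
    (∀ i, h i (x i) = g (e i)) →
    (∀ ε : ℝ, 0 < ε → {i | ∃ p : P i, ε ≤ dist (h i p) (h i (x i))}.Finite) →
    Continuous (glueMap x e g h)

/-- GPSI: injectivity and range of a glued map (pure set theory). -/
def StmGPsi : Prop :=
  ∀ (ι Q T : Type) (P : ι → Type) (x : ∀ i, P i) (e : ι → Q)
    (g : Q → T) (h : ∀ i, P i → T), Function.Injective g → (∀ i, InjOn (h i) {x i}ᶜ) →
    (∀ i, ∀ p, p ≠ x i → h i p ∉ range g) →
    (∀ i j, i ≠ j → ∀ p q, p ≠ x i → q ≠ x j → h i p ≠ h j q) →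
    Function.Injective (glueMap x e g h) ∧
      range (glueMap x e g h) = range g ∪ ⋃ i, h i '' {x i}ᶜ

/-- The data of the surgery. -/
structure SData {X Y : Type} [TopologicalSpace X] (f : X → Y) (b b' : X) where
  c : X
  L : Set X
  M : Set X
  cut : Cut L M c
  A : ℕ → Set X
  B : ℕ → Set X
  s : ℕ → X
  e : ℕ → X
  cutn : ∀ n, Cut (A n) (B n) (s n)
  A_anti : ∀ n, A (n + 1) ⊆ A n
  B_mono : ∀ n, B n ⊆ B (n + 1)
  L_sub : ∀ n, L ⊆ A n
  s_notin : ∀ n, s n ∉ L
  b_mem : b ∈ L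
  b'_mem : ∀ n, b' ∈ B n
  shrink : ∀ O ∈ 𝓝 c, ∀ᶠ n in atTop, A n ∩ M ⊆ O
  e_eq : ∀ n, f (e n) = f (s n)
  e_notin : ∀ n, e n ∉ A 0 ∩ M

/-- SEQ: existence of the data of the surgery. -/
def StmSeq : Prop :=
  ∀ (X Y : Type) [TopologicalSpace X] [MetricSpace Y] (f : X → Y), IsDen X → Continuous f →
    (∀ z : X, ∃ z', z' ≠ z ∧ f z' = f z) → ∀ a a' : X, a ≠ a' →
    Nonempty (SData f a a') ∨ Nonempty (SData f a' a)

/-- SURG: the surgery. -/
def StmSurg : Prop :=
  ∀ (X Y : Type) [TopologicalSpace X] [MetricSpace Y] (f : X → Y), IsDen X → Continuous f →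
    ∀ b b' : X, f b = f b' → SData f b b' →
    ∃ (X' : Type) (_ : TopologicalSpace X') (Ψ : X' → X), IsDen X' ∧ Continuous (f ∘ Ψ) ∧
      Function.Injective Ψ ∧ range Ψ = {b'}ᶜ

/-- FIN: the theorem for the working definition, from the pieces. -/
def StmMain' : Prop :=
  ∀ k : ℕ, 2 ≤ k → ∀ (Z : Type) [MetricSpace Z] (Y₁ Y₂ : Set Z) (p : Z),
    IsKImage' k Y₁ → IsKImage' k Y₂ → Y₁ ∩ Y₂ = {p} → IsKImage' k (Y₁ ∪ Y₂)

/-- PATH: Peano continua are locally path connected (Mazurkiewicz, Moore). -/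
def StmPath : Prop :=
  ∀ (X : Type) [TopologicalSpace X], IsPeano X → LocallyPathConnectedSpace X

/-- PARC: a path between two distinct points of a Hausdorff space contains an arc. -/
def StmPArc : Prop :=
  ∀ (X : Type) [TopologicalSpace X] [T2Space X] (u v : X), u ≠ v → ∀ γ : Path u v,
    ∃ γ' : Path u v, Function.Injective γ' ∧ range γ' ⊆ range γ

/-- THIRD: a Peano continuum without simple closed curves has the third point property. -/
def StmThird : Prop :=
  ∀ (X : Type) [TopologicalSpace X], IsDendrite X → ThirdPoint X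

/-- NOC: the third point property excludes simple closed curves. -/
def StmNoc : Prop :=
  ∀ (X : Type) [TopologicalSpace X], ThirdPoint X → NoCircle X

/-- The final theorem. -/
def StmMain : Prop :=
  ∀ k : ℕ, 2 ≤ k → ∀ (Z : Type) [MetricSpace Z] (Y₁ Y₂ : Set Z) (p : Z),
    IsKImage k Y₁ → IsKImage k Y₂ → Y₁ ∩ Y₂ = {p} → IsKImage k (Y₁ ∪ Y₂)

end Pool.Agent.R638.DD
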