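import Mathlib
import Pool.Agent.R638.DD.Stm

set_option autoImplicit false

/-! Project DD, pieces MEET and CUT. -/

namespace Pool.Agent.R638.DD

open Set Topology Filter

/-- a connected set meets a side of a cut in a connected set
(copied from `Pool/Agent/H699T/Sep.lean`) -/
theorem cut_preconnected_aux {E : Type*} [TopologicalSpace E] {A B C : Set E} {c : E}
    (hA : IsClosed A) (hB : IsClosed B) (hAB : A ∩ B ⊆ {c}) (hC : IsPreconnected C)
    (hCs : C ⊆ A ∪ B) : IsPreconnected (C ∩ A) := by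
  rw [isPreconnected_closed_iff]
  have key : ∀ t t' : Set E, IsClosed t → IsClosed t' → C ∩ A ⊆ t ∪ t' →
      (C ∩ A ∩ t).Nonempty → (C ∩ A ∩ t').Nonempty → (c ∈ C ∩ A → c ∈ t) →
      (C ∩ A ∩ (t ∩ t')).Nonempty := by
    intro t t' ht ht' hs hn hn' hct
    have hcl1 : IsClosed ((A ∩ t) ∪ B) := (hA.inter ht).union hB
    have hcl2 : IsClosed (A ∩ t') := hA.inter ht'
    obtain ⟨x, hxC, hx1, hx2⟩ := isPreconnected_closed_iff.mp hC _ _ hcl1 hcl2 (by
      intro x hx
      rcases hCs hx with h | h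
      · rcases hs ⟨hx, h⟩ with h' | h'
        · exact Or.inl (Or.inl ⟨h, h'⟩)
        · exact Or.inr ⟨h, h'⟩
      · exact Or.inl (Or.inr h)) (by
        obtain ⟨x, ⟨h1, h2⟩, h3⟩ := hn
        exact ⟨x, h1, Or.inl ⟨h2, h3⟩⟩) (by
        obtain ⟨x, ⟨h1, h2⟩, h3⟩ := hn'
        exact ⟨x, h1, h2, h3⟩)
    rcases hx1 with hx1 | hx1
    · exact ⟨x, ⟨hxC, hx2.1⟩, hx1.2, hx2.2⟩
    · have hxc : x = c := hAB ⟨hx2.1, hx1⟩
      subst hxc
      exact ⟨x, ⟨hxC, hx2.1⟩, hct ⟨hxC, hx2.1⟩, hx2.2⟩
  intro t t' ht ht' hs hn hn'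
  by_cases hc : c ∈ C ∩ A
  · rcases hs hc with h | h
    · exact key t t' ht ht' hs hn hn' (fun _ => h)
    · have := key t' t ht' ht (by rwa [union_comm]) hn' hn (fun _ => h)
      rwa [inter_comm t' t] at this
  · exact key t t' ht ht' hs hn hn' (fun h => absurd h hc)

theorem t_Meet : StmMeet := by
  intro X _ A B c h C hC
  exact cut_preconnected_aux h.clA h.clB h.inter.subset hC (by rw [h.un]; exact subset_univ _)

theorem t_Cut : StmCut := by
  intro X _ A B c hX h
  have hcomp := hX.compact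
  have hmet := hX.metrizable
  have hconn := hX.connected
  have hloc := hX.locConn
  have hcA : c ∈ A := by
    have : c ∈ A ∩ B := by rw [h.inter]; exact mem_singleton c
    exact this.1
  have hApre : IsPreconnected A := by
    have := t_Meet X A B c h univ isPreconnected_univ
    rwa [univ_inter] at this
  have hAconn : IsConnected A := ⟨⟨c, hcA⟩, hApre⟩
  have hAcomp : CompactSpace ↥A := isCompact_iff_compactSpace.1 h.clA.isCompact
  have hAc : ConnectedSpace ↥A := isConnected_iff_connectedSpace.1 hAconn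
  refine ⟨⟨hAcomp, inferInstance, hAc, ?_⟩, ?_⟩
  · rw [locallyConnectedSpace_iff_subsets_isOpen_isConnected]
    intro x U hU
    obtain ⟨O, hO, hOU⟩ := mem_nhds_subtype A x U |>.1 hU
    obtain ⟨V, hVO, hVo, hxV, hVc⟩ :=
      (locallyConnectedSpace_iff_subsets_isOpen_isConnected.1 hloc) (x : X) O hO
    refine ⟨Subtype.val ⁻¹' V, (preimage_mono hVO).trans hOU,
      hVo.preimage continuous_subtype_val, hxV, ⟨⟨x, hxV⟩, ?_⟩⟩
    rw [← IsInducing.subtypeVal.isPreconnected_image, Subtype.image_preimage_coe, inter_comm]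
    exact t_Meet X A B c h V hVc.isPreconnected
  · intro u v huv
    obtain ⟨r, U, V, hU, hV, hd, hUV, hu, hv⟩ := hX.third (u : X) (v : X)
      (fun he => huv (Subtype.ext he))
    have hrA : r ∈ A := by
      by_contra hr
      have hsub : A ⊆ U ∪ V := by
        intro z hz
        rw [hUV]
        intro hzr
        rw [mem_singleton_iff] at hzr
        exact hr (hzr ▸ hz)
      obtain ⟨z, _, hz1, hz2⟩ := hApre U V hU hV hsub ⟨u, u.2, hu⟩ ⟨v, v.2, hv⟩
      exact disjoint_left.1 hd hz1 hz2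
    refine ⟨⟨r, hrA⟩, Subtype.val ⁻¹' U, Subtype.val ⁻¹' V,
      hU.preimage continuous_subtype_val, hV.preimage continuous_subtype_val,
      hd.preimage _, ?_, hu, hv⟩
    rw [← preimage_union, hUV]
    ext z
    simp [Subtype.ext_iff]

end Pool.Agent.R638.DD
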