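import Mathlib

set_option autoImplicit false

/-! Project DD (MP_f86da0_gt): one-point unions of k-to-1 images of dendrites. Definitions. -/

namespace Pool.Agent.R638.DD

open Set Topology Filter

/-- A Peano continuum: a locally connected metrizable continuum. -/
structure IsPeano (X : Type) [TopologicalSpace X] : Prop where
  compact : CompactSpace X
  metrizable : TopologicalSpace.MetrizableSpace X
  connected : ConnectedSpace X
  locConn : LocallyConnectedSpace X

/-- `X` contains no simple closed curve. -/
def NoCircle (X : Type) [TopologicalSpace X] : Prop :=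
  ∀ c : Circle → X, Continuous c → ¬ Function.Injective c

/-- A dendrite: a Peano continuum that contains no simple closed curve. -/
structure IsDendrite (X : Type) [TopologicalSpace X] : Prop extends IsPeano X where
  noCircle : NoCircle X

/-- Any two distinct points are separated by a third point. -/
def ThirdPoint (X : Type) [TopologicalSpace X] : Prop :=
  ∀ u v : X, u ≠ v → ∃ (r : X) (A B : Set X), IsOpen A ∧ IsOpen B ∧ Disjoint A B ∧
    A ∪ B = {r}ᶜ ∧ u ∈ A ∧ v ∈ B

/-- Working definition of a dendrite: a Peano continuum in which any two distinct points are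
separated by a third point. -/
structure IsDen (X : Type) [TopologicalSpace X] : Prop extends IsPeano X where
  third : ThirdPoint X

/-- `Y` is a `k`-to-1 image of a dendrite. -/
def IsKImage (k : ℕ) {Z : Type} [TopologicalSpace Z] (Y : Set Z) : Prop :=
  ∃ (D : Type) (_ : TopologicalSpace D) (f : D → Z), IsDendrite D ∧ Continuous f ∧
    range f = Y ∧ ∀ y ∈ Y, (f ⁻¹' {y}).ncard = k

/-- The same with the working definition. -/
def IsKImage' (k : ℕ) {Z : Type} [TopologicalSpace Z] (Y : Set Z) : Prop :=
  ∃ (D : Type) (_ : TopologicalSpace D) (f : D → Z), IsDen D ∧ Continuous f ∧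
    range f = Y ∧ ∀ y ∈ Y, (f ⁻¹' {y}).ncard = k

/-- The points which lie on every connected set containing `u` and `v`
(`u`, `v` and the points separating `u` from `v`). -/
def Btw {X : Type} [TopologicalSpace X] (u v : X) : Set X :=
  {x | ∀ C : Set X, IsPreconnected C → u ∈ C → v ∈ C → x ∈ C}

/-- `A`, `B` are closed sets covering the space and meeting in the point `c`. -/
structure Cut {X : Type} [TopologicalSpace X] (A B : Set X) (c : X) : Prop where
  clA : IsClosed A
  clB : IsClosed B
  un : A ∪ B = univ
  inter : A ∩ B = {c}

/-- The space obtained from `Q` by attaching the spaces `P i`, the point `x i` of `P i` being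
glued to the point `e i` of `Q`: a subset of the product of `Q` and all `P i`. -/
def GlueSet {ι Q : Type} {P : ι → Type} (x : ∀ i, P i) (e : ι → Q) : Set (Q × (∀ i, P i)) :=
  {t | (∀ i, t.2 i = x i ∨ t.1 = e i) ∧ ∀ i j, i ≠ j → t.2 i = x i ∨ t.2 j = x j}

/-- The glued space. -/
abbrev Glue {ι Q : Type} {P : ι → Type} (x : ∀ i, P i) (e : ι → Q) : Type := ↥(GlueSet x e)

open Classical in
/-- The map given by `g` on `Q` and by `h i` on the part `P i ∖ {x i}`. -/
noncomputable def glueMap {ι Q T : Type} {P : ι → Type} (x : ∀ i, P i) (e : ι → Q)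
    (g : Q → T) (h : ∀ i, P i → T) (t : Glue x e) : T :=
  if H : ∃ i, t.1.2 i ≠ x i then h H.choose (t.1.2 H.choose) else g t.1.1

end Pool.Agent.R638.DD
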