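import Pool.Agent.R638.DD.SURG

set_option autoImplicit false

namespace Pool.Agent.R638.DD

open Set Topology Filter

theorem exists_ne_fib {A B : Type} {k : ℕ} (hk : 2 ≤ k) (f : A → B) {y : B}
    (h : k ≤ (f ⁻¹' {y}).ncard) (z : A) : ∃ z', z' ≠ z ∧ f z' = y := by
  obtain ⟨z', h1, h2⟩ := Set.exists_ne_of_one_lt_ncard (lt_of_lt_of_le (by omega) h) z
  exact ⟨z', h2, h1⟩

theorem ncard_preimage_compl {A B : Type} (ψ : A → B) (hi : Function.Injective ψ) {b : B}
    (hr : range ψ = {b}ᶜ) (S : Set B) (hb : b ∉ S) : (ψ ⁻¹' S).ncard = S.ncard := by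
  apply Set.ncard_preimage_of_injective_subset_range hi
  rw [hr]
  intro z hz h
  exact hb (h ▸ hz)

theorem ncard_preimage_compl_mem {A B : Type} (ψ : A → B) (hi : Function.Injective ψ) {b : B}
    (hr : range ψ = {b}ᶜ) (S : Set B) (hb : b ∈ S) : (ψ ⁻¹' S).ncard = S.ncard - 1 := by
  have h1 : ψ ⁻¹' S = ψ ⁻¹' (S \ {b}) := by
    ext z
    simp only [mem_preimage, Set.mem_sdiff, mem_singleton_iff]
    refine ⟨fun h => ⟨h, fun h' => ?_⟩, fun h => h.1⟩
    have : ψ z ∈ range ψ := ⟨z, rfl⟩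
    rw [hr] at this
    exact this h'
  rw [h1, ncard_preimage_compl ψ hi hr _ (by simp)]
  exact Set.ncard_sdiff_singleton_of_mem hb

theorem absorb (h1 : StmSeq) (h2 : StmSurg) {k : ℕ} (hk : 2 ≤ k) {Z : Type} [MetricSpace Z]
    (Y : Set Z) (p : Z) : ∀ (s : ℕ) (D : Type) [TopologicalSpace D] (f : D → Z),
    IsDen D → Continuous f → range f = Y → (∀ y ∈ Y, y ≠ p → (f ⁻¹' {y}).ncard = k) →
    (f ⁻¹' {p}).ncard = k + s → IsKImage' k Y := by
  intro s
  induction s with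
  | zero =>
    intro D _ f hD hf hr h3 h4
    refine ⟨D, inferInstance, f, hD, hf, hr, ?_⟩
    intro y hy
    by_cases hyp : y = p
    · rw [hyp]; exact h4
    · exact h3 y hy hyp
  | succ s ih =>
    intro D _ f hD hf hr h3 h4
    have hge : ∀ y ∈ Y, k ≤ (f ⁻¹' {y}).ncard := by
      intro y hy
      by_cases hyp : y = p
      · rw [hyp, h4]; omega
      · rw [h3 y hy hyp]
    have hfib : ∀ z : D, ∃ z', z' ≠ z ∧ f z' = f z := fun z =>
      exists_ne_fib hk f (hge (f z) (hr ▸ ⟨z, rfl⟩)) z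
    have hfin : (f ⁻¹' {p}).Finite := by
      apply Set.finite_of_ncard_ne_zero
      rw [h4]; omega
    obtain ⟨a, ha, a', ha', haa⟩ := (Set.one_lt_ncard hfin).1 (by rw [h4]; omega)
    have hb : ∃ b b' : D, f b = p ∧ f b' = p ∧ Nonempty (SData f b b') := by
      rcases h1 D Z f hD hf hfib a a' haa with h | h
      · exact ⟨a, a', ha, ha', h⟩
      · exact ⟨a', a, ha', ha, h⟩
    obtain ⟨b, b', hbp, hbp', ⟨S⟩⟩ := hb
    obtain ⟨X', _, Ψ, hX', hc, hi, hΨr⟩ := h2 D Z f hD hf b b' (by rw [hbp, hbp']) S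
    refine ih X' (f ∘ Ψ) hX' hc ?_ ?_ ?_
    · apply Subset.antisymm
      · rintro _ ⟨z, rfl⟩
        rw [← hr]
        exact ⟨Ψ z, rfl⟩
      · intro y hy
        have hy' := hy
        rw [← hr] at hy'
        obtain ⟨z, hz⟩ := hy'
        obtain ⟨z', hz', hz''⟩ := exists_ne_fib hk f (hge y hy) b'
        have : z' ∈ range Ψ := by rw [hΨr]; exact hz'
        obtain ⟨w, hw⟩ := this
        exact ⟨w, by rw [Function.comp, hw]; exact hz''⟩
    · intro y hy hyp
      rw [preimage_comp, ncard_preimage_compl Ψ hi hΨr _ (by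
        intro h
        have h' : f b' = y := h
        exact hyp (h'.symm.trans hbp'))]
      exact h3 y hy hyp
    · rw [preimage_comp, ncard_preimage_compl_mem Ψ hi hΨr _ hbp', h4]
      omega

theorem t_Main' (h1 : StmSeq) (h2 : StmSurg) (h3 : StmGlue) (h4 : StmGMap) (h5 : StmGPsi) :
    StmMain' := by
  intro k hk Z _ Y₁ Y₂ p hY₁ hY₂ hp
  obtain ⟨D₁, _, f₁, hD₁, hc₁, hr₁, hn₁⟩ := hY₁
  obtain ⟨D₂, _, f₂, hD₂, hc₂, hr₂, hn₂⟩ := hY₂
  have hp1 : p ∈ Y₁ := (by rw [hp]; rfl : p ∈ Y₁ ∩ Y₂).1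
  have hp2 : p ∈ Y₂ := (by rw [hp]; rfl : p ∈ Y₁ ∩ Y₂).2
  obtain ⟨a, ha⟩ : ∃ a, f₁ a = p := by rw [← hr₁] at hp1; exact hp1
  obtain ⟨b, hb⟩ : ∃ b, f₂ b = p := by rw [← hr₂] at hp2; exact hp2
  have hm := hD₂.metrizable
  let x : ∀ _ : Unit, D₂ := fun _ => b
  let e : Unit → D₁ := fun _ => a
  let ψ : Glue x e → D₁ ⊕ D₂ := glueMap x e Sum.inl (fun _ => Sum.inr)
  have hX : IsDen (Glue x e) := h3 Unit D₁ (fun _ => D₂) x e hD₁ (fun _ => hD₂)
  obtain ⟨hψi, hψr⟩ := h5 Unit D₁ (D₁ ⊕ D₂) (fun _ => D₂) x e Sum.inl (fun _ => Sum.inr)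
    Sum.inl_injective (fun _ => Sum.inr_injective.injOn)
    (by rintro _ q - ⟨w, hw⟩; exact absurd hw (by simp))
    (by intro i j hij; exact absurd rfl hij)
  have hψr' : range ψ = {Sum.inr b}ᶜ := by
    change range (glueMap x e Sum.inl (fun _ => Sum.inr)) = _
    rw [hψr]
    ext z
    simp only [mem_union, mem_range, mem_iUnion, mem_image, mem_compl_iff, mem_singleton_iff, x]
    constructor
    · rintro (⟨q, rfl⟩ | ⟨_, q, hq, rfl⟩)
      · simp
      · intro h; exact hq (Sum.inr_injective h)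
    · intro h
      cases z with
      | inl z => exact Or.inl ⟨z, rfl⟩
      | inr z => exact Or.inr ⟨(), z, fun h' => h (by rw [h']), rfl⟩
  let F : D₁ ⊕ D₂ → Z := Sum.elim f₁ f₂
  have hcont : Continuous (F ∘ ψ) := by
    change Continuous (F ∘ glueMap x e Sum.inl (fun _ => Sum.inr))
    rw [comp_glueMap]
    exact h4 Unit D₁ Z (fun _ => D₂) x e (F ∘ Sum.inl) (fun _ => F ∘ Sum.inr)
      hc₁ (fun _ => hc₂) (fun _ => by
        change f₂ b = f₁ a
        rw [ha, hb]) (fun ε _ => Set.toFinite _)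
  have hF : ∀ y, F ⁻¹' {y} = Sum.inl '' (f₁ ⁻¹' {y}) ∪ Sum.inr '' (f₂ ⁻¹' {y}) := by
    intro y
    ext z
    cases z with
    | inl z => simp [F]
    | inr z => simp [F]
  have hempty₁ : ∀ y, y ∉ Y₁ → f₁ ⁻¹' {y} = ∅ := by
    intro y hy
    ext z
    simp only [mem_preimage, mem_singleton_iff, mem_empty_iff_false, iff_false]
    intro h
    exact hy (hr₁ ▸ ⟨z, h⟩)
  have hempty₂ : ∀ y, y ∉ Y₂ → f₂ ⁻¹' {y} = ∅ := by
    intro y hy
    ext z
    simp only [mem_preimage, mem_singleton_iff, mem_empty_iff_false, iff_false]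
    intro h
    exact hy (hr₂ ▸ ⟨z, h⟩)
  have hor : ∀ y ∈ Y₁ ∪ Y₂, y ≠ p → (F ⁻¹' {y}).ncard = k := by
    intro y hy hyp
    rw [hF y]
    rcases hy with hy | hy
    · have hy2 : y ∉ Y₂ := by
        intro h
        have : y ∈ Y₁ ∩ Y₂ := ⟨hy, h⟩
        rw [hp] at this
        exact hyp this
      rw [hempty₂ y hy2, image_empty, union_empty, Set.ncard_image_of_injective _ Sum.inl_injective]
      exact hn₁ y hy
    · have hy2 : y ∉ Y₁ := by
        intro h
        have : y ∈ Y₁ ∩ Y₂ := ⟨h, hy⟩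
        rw [hp] at this
        exact hyp this
      rw [hempty₁ y hy2, image_empty, empty_union, Set.ncard_image_of_injective _ Sum.inr_injective]
      exact hn₂ y hy
  have hFp : (F ⁻¹' {p}).ncard = k + k := by
    have hfin1 : (f₁ ⁻¹' {p}).Finite := Set.finite_of_ncard_ne_zero (by rw [hn₁ p hp1]; omega)
    have hfin2 : (f₂ ⁻¹' {p}).Finite := Set.finite_of_ncard_ne_zero (by rw [hn₂ p hp2]; omega)
    rw [hF p, Set.ncard_union_eq ?_ (hfin1.image _) (hfin2.image _),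
      Set.ncard_image_of_injective _ Sum.inl_injective,
      Set.ncard_image_of_injective _ Sum.inr_injective, hn₁ p hp1, hn₂ p hp2]
    rw [Set.disjoint_left]
    rintro _ ⟨z, -, rfl⟩ ⟨w, -, h⟩
    exact absurd h (by simp)
  refine absorb h1 h2 hk (Y₁ ∪ Y₂) p (k - 1) (Glue x e) (F ∘ ψ) hX hcont ?_ ?_ ?_
  · apply Subset.antisymm
    · rintro _ ⟨z, rfl⟩
      change F (ψ z) ∈ _
      cases ψ z with
      | inl w => exact Or.inl (hr₁ ▸ ⟨w, rfl⟩)
      | inr w => exact Or.inr (hr₂ ▸ ⟨w, rfl⟩)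
    · intro y hy
      have hmem : ∀ z : D₁ ⊕ D₂, z ≠ Sum.inr b → F z = y → y ∈ range (F ∘ ψ) := by
        intro z hz hzy
        have : z ∈ range ψ := by rw [hψr']; exact hz
        obtain ⟨w, hw⟩ := this
        exact ⟨w, by rw [Function.comp, hw]; exact hzy⟩
      rcases hy with hy | hy
      · rw [← hr₁] at hy
        obtain ⟨z, hz⟩ := hy
        exact hmem (Sum.inl z) (by simp) hz
      · obtain ⟨z, hz, hz'⟩ := exists_ne_fib hk f₂ (hn₂ y hy).ge b
        exact hmem (Sum.inr z) (fun h => hz (Sum.inr_injective h)) hz'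
  · intro y hy hyp
    rw [preimage_comp, ncard_preimage_compl ψ hψi hψr' _ (by
      intro h
      have h' : f₂ b = y := h
      exact hyp (h'.symm.trans hb))]
    exact hor y hy hyp
  · rw [preimage_comp, ncard_preimage_compl_mem ψ hψi hψr' _ hb, hFp]
    omega

end Pool.Agent.R638.DD
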