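import Pool.Agent.R638.DD.Stm

set_option autoImplicit false

/-! Project DD, piece GLUE: attaching countably many dendrites to a dendrite gives a dendrite. -/

namespace Pool.Agent.R638.DD

open Set Topology Filter

namespace GLUE

lemma pre_union {X ι : Type} [TopologicalSpace X] {A : Set X} {B : ι → Set X}
    (hA : IsPreconnected A) (hne : A.Nonempty) (hB : ∀ i, IsPreconnected (B i))
    (h : ∀ i, (A ∩ B i).Nonempty) : IsPreconnected (A ∪ ⋃ i, B i) := by
  obtain ⟨a, ha⟩ := hne
  have e : A ∪ ⋃ i, B i = ⋃₀ ({A} ∪ range (fun i => A ∪ B i)) := by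
    ext z
    simp only [mem_union, mem_iUnion, mem_sUnion, mem_singleton_iff, mem_range]
    constructor
    · rintro (hz | ⟨i, hz⟩)
      · exact ⟨A, Or.inl rfl, hz⟩
      · exact ⟨A ∪ B i, Or.inr ⟨i, rfl⟩, Or.inr hz⟩
    · rintro ⟨T, (rfl | ⟨i, rfl⟩), hz⟩
      · exact Or.inl hz
      · rcases hz with hz | hz
        · exact Or.inl hz
        · exact Or.inr ⟨i, hz⟩
  rw [e]
  refine isPreconnected_sUnion a _ ?_ ?_
  · rintro T (hT | ⟨i, rfl⟩)
    · rw [mem_singleton_iff] at hT; rw [hT]; exact ha
    · exact Or.inl ha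
  · rintro T (hT | ⟨i, rfl⟩)
    · rw [mem_singleton_iff] at hT; rw [hT]; exact hA
    · obtain ⟨z, hz1, hz2⟩ := h i
      exact IsPreconnected.union z hz1 hz2 hA (hB i)

section

variable {ι Q : Type} {P : ι → Type} (x : ∀ i, P i) (e : ι → Q)

/-- the embedding of `Q` -/
def jQ (q : Q) : Glue x e := ⟨(q, x), fun _ => Or.inl rfl, fun _ _ _ => Or.inl rfl⟩

open Classical in
/-- the embedding of `P i` -/
noncomputable def jP (i : ι) (p : P i) : Glue x e :=
  ⟨(e i, Function.update x i p), by
    constructor
    · intro k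
      by_cases hk : k = i
      · subst hk; exact Or.inr rfl
      · left; exact Function.update_of_ne hk _ _
    · intro k l hkl
      by_cases hk : k = i
      · right
        have : l ≠ i := fun h => hkl (hk.trans h.symm)
        exact Function.update_of_ne this _ _
      · left; exact Function.update_of_ne hk _ _⟩

lemma jP_x (i : ι) : jP x e i (x i) = jQ x e (e i) := by
  classical
  apply Subtype.ext
  simp [jP, jQ]

lemma jP_snd (i : ι) (p : P i) : (jP x e i p).1.2 i = p := by
  simp [jP]

lemma jP_fst (i : ι) (p : P i) : (jP x e i p).1.1 = e i := rfl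

lemma jP_snd_ne (i k : ι) (h : k ≠ i) (p : P i) : (jP x e i p).1.2 k = x k := by
  simp [jP, h]

lemma eq_jQ (t : Glue x e) (h : ∀ i, t.1.2 i = x i) : t = jQ x e t.1.1 := by
  apply Subtype.ext
  refine Prod.ext rfl ?_
  funext i
  exact h i

lemma eq_jP (t : Glue x e) (i : ι) (h : t.1.2 i ≠ x i) : t = jP x e i (t.1.2 i) := by
  apply Subtype.ext
  refine Prod.ext ?_ ?_
  · rcases t.2.1 i with h' | h'
    · exact absurd h' h
    · exact h'
  · funext k
    by_cases hk : k = i
    · subst hk; exact (jP_snd x e k _).symm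
    · rw [jP_snd_ne x e i k hk]
      rcases t.2.2 i k (fun h' => hk h'.symm) with h' | h'
      · exact absurd h' h
      · exact h'

variable [TopologicalSpace Q] [∀ i, TopologicalSpace (P i)]

lemma jQ_cont : Continuous (jQ x e) :=
  Continuous.subtype_mk (continuous_id.prodMk continuous_const) _

lemma jP_cont (i : ι) : Continuous (jP x e i) := by
  classical
  refine Continuous.subtype_mk (continuous_const.prodMk ?_) _
  exact (continuous_const (y := x) (X := P i)).update i (continuous_id)

lemma closed_glue [T2Space Q] [∀ i, T2Space (P i)] : IsClosed (GlueSet x e) := by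
  have h1 : IsClosed {t : Q × (∀ i, P i) | ∀ i, t.2 i = x i ∨ t.1 = e i} := by
    simp only [ofPred_forall]
    refine isClosed_iInter fun i => ?_
    exact (isClosed_eq (by fun_prop) continuous_const).union
      (isClosed_eq continuous_fst continuous_const)
  have h2 : IsClosed {t : Q × (∀ i, P i) | ∀ i j, i ≠ j → t.2 i = x i ∨ t.2 j = x j} := by
    simp only [ofPred_forall]
    refine isClosed_iInter fun i => isClosed_iInter fun j => isClosed_iInter fun _ => ?_
    exact (isClosed_eq (by fun_prop) continuous_const).union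
      (isClosed_eq (by fun_prop) continuous_const)
  exact h1.inter h2

lemma glue_peano [Countable ι] (hQ : IsPeano Q) (hP : ∀ i, IsPeano (P i)) :
    IsPeano (Glue x e) := by
  classical
  haveI := hQ.compact
  haveI := hQ.metrizable
  haveI := hQ.connected
  haveI := hQ.locConn
  haveI := fun i => (hP i).compact
  haveI := fun i => (hP i).metrizable
  haveI := fun i => (hP i).connected
  haveI := fun i => (hP i).locConn
  haveI : SecondCountableTopology Q := by
    letI := TopologicalSpace.metrizableSpaceMetric Q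
    exact EMetric.secondCountable_of_sigmaCompact Q
  haveI : ∀ i, SecondCountableTopology (P i) := fun i => by
    letI := TopologicalSpace.metrizableSpaceMetric (P i)
    exact EMetric.secondCountable_of_sigmaCompact (P i)
  have hcomp : CompactSpace (Glue x e) :=
    isCompact_iff_compactSpace.mp (closed_glue x e).isCompact
  have hmet : TopologicalSpace.MetrizableSpace (Glue x e) :=
    TopologicalSpace.metrizableSpace_of_t3_secondCountable _
  refine ⟨hcomp, hmet, ?_, ?_⟩
  · -- connected
    have hpre : IsPreconnected (range (jQ x e) ∪ ⋃ i, range (jP x e i)) := by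
      refine pre_union (isPreconnected_range (jQ_cont x e)) (range_nonempty _)
        (fun i => isPreconnected_range (jP_cont x e i)) ?_
      intro i
      exact ⟨jQ x e (e i), ⟨e i, rfl⟩, ⟨x i, jP_x x e i⟩⟩
    have huniv : range (jQ x e) ∪ ⋃ i, range (jP x e i) = univ := by
      rw [eq_univ_iff_forall]
      intro t
      by_cases h : ∀ i, t.1.2 i = x i
      · left; exact ⟨t.1.1, (eq_jQ x e t h).symm⟩
      · push Not at h
        obtain ⟨i, hi⟩ := h
        right
        exact mem_iUnion.mpr ⟨i, t.1.2 i, (eq_jP x e t i hi).symm⟩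
    rw [huniv] at hpre
    obtain ⟨q⟩ := (inferInstance : Nonempty Q)
    haveI : PreconnectedSpace (Glue x e) := ⟨hpre⟩
    exact { toNonempty := ⟨jQ x e q⟩ }
  · -- locally connected
    rw [locallyConnectedSpace_iff_subsets_isOpen_isConnected]
    intro t U hU
    by_cases h : ∀ i, t.1.2 i = x i
    · rw [mem_nhds_subtype] at hU
      obtain ⟨u, hu, huU⟩ := hU
      have hu' : u ∈ 𝓝 (t.1.1, t.1.2) := hu
      rw [mem_nhds_prod_iff] at hu'
      obtain ⟨u1, hu1, u2, hu2, hu12⟩ := hu'
      rw [nhds_pi, Filter.mem_pi'] at hu2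
      obtain ⟨F, w, hw, hwu⟩ := hu2
      obtain ⟨U', hU'1, hU'2, hU'3, hU'4⟩ :=
        (locallyConnectedSpace_iff_subsets_isOpen_isConnected.mp ‹LocallyConnectedSpace Q›)
          t.1.1 u1 hu1
      have hV : ∀ i, ∃ V : Set (P i), IsOpen V ∧ x i ∈ V ∧ IsPreconnected V ∧
          (i ∈ F → V ⊆ w i) ∧ (i ∉ F → V = univ) := by
        intro i
        by_cases hi : i ∈ F
        · have hwi := hw i
          rw [h i] at hwi
          obtain ⟨V, hV1, hV2, hV3, hV4⟩ :=
            (locallyConnectedSpace_iff_subsets_isOpen_isConnected.mp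
              (inferInstance : LocallyConnectedSpace (P i))) (x i) (w i) hwi
          exact ⟨V, hV2, hV3, hV4.isPreconnected, fun _ => hV1, fun hh => absurd hi hh⟩
        · exact ⟨univ, isOpen_univ, mem_univ _, isPreconnected_univ, fun hh => absurd hh hi,
            fun _ => rfl⟩
      choose V hV1 hV2 hV3 hV4 hV5 using hV
      let N : Set (Glue x e) := {s | s.1.1 ∈ U' ∧ ∀ i ∈ F, s.1.2 i ∈ V i}
      have hNV : ∀ s ∈ N, ∀ i, s.1.2 i ∈ V i := by
        intro s hs i
        by_cases hi : i ∈ F
        · exact hs.2 i hi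
        · rw [hV5 i hi]; exact mem_univ _
      have hNopen : IsOpen N := by
        have h1 : IsOpen {s : Glue x e | s.1.1 ∈ U'} :=
          hU'2.preimage (continuous_fst.comp continuous_subtype_val)
        have h2 : IsOpen {s : Glue x e | ∀ i ∈ F, s.1.2 i ∈ V i} := by
          have : {s : Glue x e | ∀ i ∈ F, s.1.2 i ∈ V i} =
              ⋂ i ∈ F, {s : Glue x e | s.1.2 i ∈ V i} := by
            ext s; simp
          rw [this]
          refine isOpen_biInter_finset fun i _ => ?_
          exact (hV1 i).preimage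
            ((continuous_apply i).comp (continuous_snd.comp continuous_subtype_val))
        exact h1.inter h2
      have hNeq : N = jQ x e '' U' ∪ ⋃ i : {i // e i ∈ U'}, jP x e i.1 '' V i.1 := by
        ext s
        constructor
        · intro hs
          by_cases hs' : ∀ i, s.1.2 i = x i
          · left
            exact ⟨s.1.1, hs.1, (eq_jQ x e s hs').symm⟩
          · push Not at hs'
            obtain ⟨i, hi⟩ := hs'
            right
            have hse : s.1.1 = e i := by
              rcases s.2.1 i with h' | h'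
              · exact absurd h' hi
              · exact h'
            refine mem_iUnion.mpr ⟨⟨i, hse ▸ hs.1⟩, s.1.2 i, hNV s hs i, ?_⟩
            exact (eq_jP x e s i hi).symm
        · rintro (⟨q, hq, rfl⟩ | hs)
          · exact ⟨hq, fun i _ => hV2 i⟩
          · obtain ⟨⟨i, hi⟩, p, hp, rfl⟩ := mem_iUnion.mp hs
            refine ⟨hi, fun k hk => ?_⟩
            by_cases hki : k = i
            · subst hki; rw [jP_snd]; exact hp
            · rw [jP_snd_ne x e i k hki]; exact hV2 k
      have hNconn : IsPreconnected N := by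
        rw [hNeq]
        refine pre_union (hU'4.isPreconnected.image _ (jQ_cont x e).continuousOn)
          ⟨jQ x e t.1.1, t.1.1, hU'3, rfl⟩
          (fun i => (hV3 i.1).image _ (jP_cont x e i.1).continuousOn) ?_
        rintro ⟨i, hi⟩
        exact ⟨jQ x e (e i), ⟨e i, hi, rfl⟩, ⟨x i, hV2 i, jP_x x e i⟩⟩
      have htN : t ∈ N := ⟨hU'3, fun i _ => by rw [h i]; exact hV2 i⟩
      refine ⟨N, ?_, hNopen, htN, ⟨t, htN⟩, hNconn⟩
      intro s hs
      apply huU
      apply hu12
      refine ⟨hU'1 hs.1, hwu ?_⟩
      intro i hi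
      exact hV4 i hi (hs.2 i hi)
    · push Not at h
      obtain ⟨i, hi⟩ := h
      have ht := eq_jP x e t i hi
      have hO : jP x e i ⁻¹' U ∩ {x i}ᶜ ∈ 𝓝 (t.1.2 i) := by
        refine inter_mem ?_ (isOpen_compl_singleton.mem_nhds hi)
        refine (jP_cont x e i).continuousAt ?_
        rw [← ht]; exact hU
      obtain ⟨V, hV1, hV2, hV3, hV4⟩ :=
        (locallyConnectedSpace_iff_subsets_isOpen_isConnected.mp
          (inferInstance : LocallyConnectedSpace (P i))) (t.1.2 i) _ hO
      have hNeq : {s : Glue x e | s.1.2 i ∈ V} = jP x e i '' V := by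
        ext s
        constructor
        · intro hs
          have hs1 : s.1.2 i ≠ x i := (hV1 hs).2
          exact ⟨s.1.2 i, hs, (eq_jP x e s i hs1).symm⟩
        · rintro ⟨p, hp, rfl⟩
          show (jP x e i p).1.2 i ∈ V
          rw [jP_snd]; exact hp
      refine ⟨{s : Glue x e | s.1.2 i ∈ V}, ?_, ?_, hV3, ⟨t, hV3⟩, ?_⟩
      · rw [hNeq]
        rintro _ ⟨p, hp, rfl⟩
        exact (hV1 hp).1
      · exact hV2.preimage
          ((continuous_apply i).comp (continuous_snd.comp continuous_subtype_val))
      · rw [hNeq]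
        exact hV4.isPreconnected.image _ (jP_cont x e i).continuousOn

end

lemma third_aux {G D : Type} [TopologicalSpace G] [TopologicalSpace D] (h2 : StmComp)
    (hD : IsPeano D) (f : G → D) (hf : Continuous f) (s t : G) (r : D)
    (hr : r ∈ Btw (f s) (f t)) (hrs : r ≠ f s) (hrt : r ≠ f t) (g : G)
    (hg : ∀ z, f z = r ↔ z = g) :
    ∃ (r : G) (A B : Set G), IsOpen A ∧ IsOpen B ∧ Disjoint A B ∧
      A ∪ B = {r}ᶜ ∧ s ∈ A ∧ t ∈ B := by
  obtain ⟨hWo, hcut, _, _⟩ := h2 D hD r (f s) hrs.symm
  set W := connectedComponentIn {r}ᶜ (f s) with hW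
  have hWsub : W ⊆ {r}ᶜ := connectedComponentIn_subset _ _
  refine ⟨g, f ⁻¹' W, f ⁻¹' (W ∪ {r})ᶜ, hWo.preimage hf,
    (hcut.clB.isOpen_compl).preimage hf, ?_, ?_, ?_, ?_⟩
  · rw [Set.disjoint_left]
    intro z hz hz'
    exact hz' (Or.inl hz)
  · ext z
    simp only [mem_union, mem_preimage, mem_compl_iff, mem_singleton_iff, not_or]
    constructor
    · rintro (hz | ⟨_, hz⟩) hzg
      · exact hWsub hz ((hg z).mpr hzg)
      · exact hz ((hg z).mpr hzg)
    · intro hz
      by_cases hzW : f z ∈ W
      · exact Or.inl hzW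
      · exact Or.inr ⟨hzW, fun hh => hz ((hg z).mp hh)⟩
  · exact mem_connectedComponentIn hrs.symm
  · rintro (hz | hz)
    · exact hWsub (hr W isPreconnected_connectedComponentIn
        (mem_connectedComponentIn hrs.symm) hz) rfl
    · exact hrt hz.symm

end GLUE

open GLUE in
theorem t_Glue (h1 : StmUnc) (h2 : StmComp) : StmGlue := by
  intro ι Q P _ _ _ x e hQ hP
  have hG : IsPeano (Glue x e) := glue_peano x e hQ.toIsPeano (fun i => (hP i).toIsPeano)
  refine { toIsPeano := hG, third := ?_ }
  intro s t hst
  by_cases h : s.1.1 = t.1.1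
  · have : ∃ i, s.1.2 i ≠ t.1.2 i := by
      by_contra hcon
      push Not at hcon
      exact hst (Subtype.ext (Prod.ext h (funext hcon)))
    obtain ⟨i, hi⟩ := this
    obtain ⟨r, hr, hrS⟩ := h1 (P i) (hP i) _ _ hi {x i, s.1.2 i, t.1.2 i}
      ((Set.toFinite _).countable)
    simp only [mem_insert_iff, mem_singleton_iff, not_or] at hrS
    refine third_aux h2 (hP i).toIsPeano (fun z : Glue x e => z.1.2 i)
      ((continuous_apply i).comp (continuous_snd.comp continuous_subtype_val)) s t r hr
      hrS.2.1 hrS.2.2 (jP x e i r) ?_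
    intro z
    constructor
    · intro hz
      have hz' : z.1.2 i = r := hz
      have := eq_jP x e z i (by rw [hz']; exact hrS.1)
      rw [hz'] at this
      exact this
    · rintro rfl
      exact jP_snd x e i r
  · obtain ⟨r, hr, hrS⟩ := h1 Q hQ _ _ h (range e ∪ {s.1.1, t.1.1})
      ((countable_range e).union ((Set.toFinite _).countable))
    simp only [mem_union, mem_range, mem_insert_iff, mem_singleton_iff, not_or, not_exists] at hrS
    refine third_aux h2 hQ.toIsPeano (fun z : Glue x e => z.1.1)
      (continuous_fst.comp continuous_subtype_val) s t r hr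
      hrS.2.1 hrS.2.2 (jQ x e r) ?_
    intro z
    constructor
    · intro hz
      have hz' : z.1.1 = r := hz
      have := eq_jQ x e z (fun i => by
        rcases z.2.1 i with h' | h'
        · exact h'
        · exact absurd (h'.symm.trans hz') (hrS.1 i))
      rw [hz'] at this
      exact this
    · rintro rfl
      rfl

end Pool.Agent.R638.DD
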