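import Pool.Agent.R638.DD.Stm

set_option autoImplicit false

/-! Project DD, piece GMAP: continuity of the glued map. -/

namespace Pool.Agent.R638.DD

open Set Topology Filter

namespace GMapAux

variable {ι Q Y : Type} {P : ι → Type}

theorem glueMap_of_ne (x : ∀ i, P i) (e : ι → Q) (g : Q → Y) (h : ∀ i, P i → Y)
    (t : Glue x e) (i : ι) (hi : t.1.2 i ≠ x i) : glueMap x e g h t = h i (t.1.2 i) := by
  classical
  have H : ∃ i, t.1.2 i ≠ x i := ⟨i, hi⟩
  have key : ∀ j, t.1.2 j ≠ x j → h j (t.1.2 j) = h i (t.1.2 i) := by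
    intro j hj
    by_cases hij : i = j
    · subst hij; rfl
    · rcases t.2.2 i j hij with h1 | h1
      · exact absurd h1 hi
      · exact absurd h1 hj
  unfold glueMap
  rw [dif_pos H]
  exact key _ H.choose_spec

theorem glueMap_of_eq (x : ∀ i, P i) (e : ι → Q) (g : Q → Y) (h : ∀ i, P i → Y)
    (t : Glue x e) (ht : ∀ i, t.1.2 i = x i) : glueMap x e g h t = g t.1.1 := by
  classical
  unfold glueMap
  rw [dif_neg]
  rintro ⟨i, hi⟩
  exact hi (ht i)

end GMapAux

open GMapAux in
theorem t_GMap : StmGMap := by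
  intro ι Q Y P _ _ _ _ x e g h hg hh hx hfin
  rw [continuous_iff_continuousAt]
  intro t
  by_cases H : ∃ i, t.1.2 i ≠ x i
  · obtain ⟨i, hi⟩ := H
    have hc : Continuous (fun s : Glue x e => s.1.2 i) :=
      (continuous_apply i).comp (continuous_snd.comp continuous_subtype_val)
    have hU : ∀ᶠ s : Glue x e in 𝓝 t, s.1.2 i ≠ x i := by
      have : IsOpen {s : Glue x e | s.1.2 i ≠ x i} :=
        (isOpen_compl_singleton (x := x i)).preimage hc
      exact this.mem_nhds hi
    have h1 : ContinuousAt (fun s : Glue x e => h i (s.1.2 i)) t :=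
      ((hh i).comp hc).continuousAt
    refine h1.congr ?_
    filter_upwards [hU] with s hs
    exact (glueMap_of_ne x e g h s i hs).symm
  · push Not at H
    rw [ContinuousAt, Metric.tendsto_nhds]
    intro ε hε
    have hF := hfin (ε / 2) (by positivity)
    have hc1 : Continuous (fun s : Glue x e => g s.1.1) :=
      hg.comp (continuous_fst.comp continuous_subtype_val)
    have e1 : ∀ᶠ s : Glue x e in 𝓝 t, dist (g s.1.1) (g t.1.1) < ε / 2 :=
      (Metric.tendsto_nhds.1 hc1.continuousAt) (ε / 2) (by positivity)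
    have e2 : ∀ᶠ s : Glue x e in 𝓝 t, ∀ i ∈ {i | ∃ p : P i, ε / 2 ≤ dist (h i p) (h i (x i))},
        dist (h i (s.1.2 i)) (h i (x i)) < ε / 2 := by
      rw [Filter.eventually_all_finite hF]
      intro i _
      have hc2 : Continuous (fun s : Glue x e => h i (s.1.2 i)) :=
        (hh i).comp ((continuous_apply i).comp (continuous_snd.comp continuous_subtype_val))
      have h5 : ContinuousAt (fun s : Glue x e => h i (s.1.2 i)) t := hc2.continuousAt
      have h6 := (Metric.tendsto_nhds.1 h5) (ε / 2) (by positivity)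
      have h7 : h i (x i) = (fun s : Glue x e => h i (s.1.2 i)) t := by
        change h i (x i) = h i (t.1.2 i)
        rw [H i]
      rw [h7]
      exact h6
    filter_upwards [e1, e2] with s h1 h2
    rw [glueMap_of_eq x e g h t H]
    have h3 : dist (glueMap x e g h s) (g s.1.1) < ε / 2 := by
      by_cases Hs : ∃ i, s.1.2 i ≠ x i
      · obtain ⟨i, hi⟩ := Hs
        have hse : s.1.1 = e i := by
          rcases s.2.1 i with h4 | h4
          · exact absurd h4 hi
          · exact h4
        rw [glueMap_of_ne x e g h s i hi, hse, ← hx i]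
        by_cases hm : i ∈ {i | ∃ p : P i, ε / 2 ≤ dist (h i p) (h i (x i))}
        · exact h2 i hm
        · by_contra hcon
          exact hm ⟨s.1.2 i, not_lt.1 hcon⟩
      · push Not at Hs
        rw [glueMap_of_eq x e g h s Hs, dist_self]
        positivity
    calc dist (glueMap x e g h s) (g t.1.1)
        ≤ dist (glueMap x e g h s) (g s.1.1) + dist (g s.1.1) (g t.1.1) := dist_triangle _ _ _
      _ < ε := by linarith

end Pool.Agent.R638.DD
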