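import Pool.Agent.R638.DD.Stm

set_option autoImplicit false

namespace Pool.Agent.R638.DD

open Set

namespace GPSI

variable {ι Q T : Type} {P : ι → Type} (x : ∀ i, P i) (e : ι → Q)
  (g : Q → T) (h : ∀ i, P i → T)

theorem other (t : Glue x e) (i : ι) (hi : t.1.2 i ≠ x i) (j : ι) (hj : j ≠ i) :
    t.1.2 j = x j := by
  rcases t.2.2 j i hj with h1 | h1
  · exact h1
  · exact absurd h1 hi

theorem base (t : Glue x e) (i : ι) (hi : t.1.2 i ≠ x i) : t.1.1 = e i := by
  rcases t.2.1 i with h1 | h1
  · exact absurd h1 hi
  · exact h1

theorem val1 (t : Glue x e) (i : ι) (hi : t.1.2 i ≠ x i) :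
    glueMap x e g h t = h i (t.1.2 i) := by
  have H : ∃ i, t.1.2 i ≠ x i := ⟨i, hi⟩
  have hc : H.choose = i := by
    by_contra hne
    exact H.choose_spec (other x e t i hi _ hne)
  unfold glueMap
  rw [dif_pos H]
  rw [hc]

theorem val0 (t : Glue x e) (hi : ∀ i, t.1.2 i = x i) :
    glueMap x e g h t = g t.1.1 := by
  have H : ¬ ∃ i, t.1.2 i ≠ x i := by
    rintro ⟨i, h1⟩
    exact h1 (hi i)
  unfold glueMap
  rw [dif_neg H]

end GPSI

open GPSI in
theorem t_GPsi : StmGPsi := by
  classical
  intro ι Q T P x e g h hg hinj hrange hdisj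
  constructor
  · intro t t' he
    by_cases H : ∃ i, t.1.2 i ≠ x i
    · obtain ⟨i, hi⟩ := H
      rw [val1 x e g h t i hi] at he
      by_cases H' : ∃ j, t'.1.2 j ≠ x j
      · obtain ⟨j, hj⟩ := H'
        rw [val1 x e g h t' j hj] at he
        by_cases hij : i = j
        · subst hij
          have h1 := hinj i (show t.1.2 i ∈ ({x i}ᶜ : Set (P i)) from hi)
            (show t'.1.2 i ∈ ({x i}ᶜ : Set (P i)) from hj) he
          apply Subtype.ext
          apply Prod.ext
          · rw [base x e t i hi, base x e t' i hj]
          · funext k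
            by_cases hk : k = i
            · subst hk
              exact h1
            · rw [other x e t i hi k hk, other x e t' i hj k hk]
        · exact absurd he (hdisj i j hij _ _ hi hj)
      · push Not at H'
        rw [val0 x e g h t' H'] at he
        exact absurd ⟨_, he.symm⟩ (hrange i _ hi)
    · push Not at H
      rw [val0 x e g h t H] at he
      by_cases H' : ∃ j, t'.1.2 j ≠ x j
      · obtain ⟨j, hj⟩ := H'
        rw [val1 x e g h t' j hj] at he
        exact absurd ⟨_, he⟩ (hrange j _ hj)
      · push Not at H'
        rw [val0 x e g h t' H'] at he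
        have h1 := hg he
        apply Subtype.ext
        apply Prod.ext
        · exact h1
        · funext k
          rw [H k, H' k]
  · ext y
    constructor
    · rintro ⟨t, rfl⟩
      by_cases H : ∃ i, t.1.2 i ≠ x i
      · obtain ⟨i, hi⟩ := H
        right
        rw [val1 x e g h t i hi]
        exact mem_iUnion.2 ⟨i, t.1.2 i, hi, rfl⟩
      · push Not at H
        left
        rw [val0 x e g h t H]
        exact ⟨_, rfl⟩
    · rintro (⟨q, rfl⟩ | hy)
      · refine ⟨⟨(q, x), fun i => Or.inl rfl, fun i j _ => Or.inl rfl⟩, ?_⟩
        rw [val0 x e g h _ (fun i => rfl)]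
      · obtain ⟨i, p, hp, rfl⟩ := mem_iUnion.1 hy
        have hp' : p ≠ x i := hp
        refine ⟨⟨(e i, Function.update x i p), fun k => ?_, fun k l hkl => ?_⟩, ?_⟩
        · by_cases hk : k = i
          · subst hk
            right
            rfl
          · left
            simp [Function.update_of_ne hk]
        · by_cases hk : k = i
          · subst hk
            right
            simp [Function.update_of_ne hkl.symm]
          · left
            simp [Function.update_of_ne hk]
        · rw [val1 x e g h _ i (by simpa using hp')]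
          simp

end Pool.Agent.R638.DD
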