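import Pool.Agent.R638.DD.Stm

/-! Project DD (helper638, MP_f86da0_gt), piece NOC by helper744: the third point property excludes simple
closed curves. -/

set_option autoImplicit false

namespace Pool.Agent.R638.DD

open Set Topology Filter

lemma noc_aux (a : Circle) (u v : Circle) (hu : u ≠ a) (hv : v ≠ a) :
    ∃ T : Set Circle, IsPreconnected T ∧ u ∈ T ∧ v ∈ T ∧ a ∉ T := by
  obtain ⟨θ, rfl⟩ : ∃ θ : ℝ, Circle.exp θ = a := ⟨_, Circle.exp_arg a⟩
  have key : ∀ z : Circle, z ≠ Circle.exp θ → z ∈ Circle.exp '' Ioo θ (θ + 2 * Real.pi) := by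
    intro z hz
    obtain ⟨y, hy, he⟩ := Circle.periodic_exp.exists_mem_Ico Real.two_pi_pos (Complex.arg z) θ
    rw [Circle.exp_arg] at he
    refine ⟨y, ⟨lt_of_le_of_ne hy.1 ?_, hy.2⟩, he.symm⟩
    rintro rfl
    exact hz he
  refine ⟨Circle.exp '' Ioo θ (θ + 2 * Real.pi), isPreconnected_Ioo.image _ Circle.exp.continuous.continuousOn,
    key u hu, key v hv, ?_⟩
  rintro ⟨y, hy, he⟩
  obtain ⟨m, hm⟩ := Circle.exp_eq_exp.1 he
  have hpi := Real.pi_pos
  have h1 : (0 : ℝ) < m := by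
    by_contra h
    push Not at h
    have := hy.1
    nlinarith
  have h2 : (m : ℝ) < 1 := by
    by_contra h
    push Not at h
    have := hy.2
    nlinarith
  have h3 : (0 : ℤ) < m := by exact_mod_cast h1
  have h4 : m < (1 : ℤ) := by exact_mod_cast h2
  omega

theorem t_Noc : StmNoc := by
  intro X _ hX c hc hinj
  have huv : c 1 ≠ c (-1) := fun h => by
    have h1 := hinj h
    have h2 := congrArg (fun z : Circle => (z : ℂ)) h1
    simp at h2
    norm_num [Complex.ext_iff] at h2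
  obtain ⟨r, A, B, hA, hB, hAB, hun, hu, hv⟩ := hX _ _ huv
  have hT : ∃ T : Set X, IsPreconnected T ∧ c 1 ∈ T ∧ c (-1) ∈ T ∧ r ∉ T := by
    by_cases hr : r ∈ range c
    · obtain ⟨a, rfl⟩ := hr
      have h1 : (1 : Circle) ≠ a := by
        rintro rfl
        have : c 1 ∈ ({c 1}ᶜ : Set X) := by rw [← hun]; exact Or.inl hu
        exact this rfl
      have h2 : (-1 : Circle) ≠ a := by
        rintro rfl
        have : c (-1) ∈ ({c (-1)}ᶜ : Set X) := by rw [← hun]; exact Or.inr hv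
        exact this rfl
      obtain ⟨T, hT, h3, h4, h5⟩ := noc_aux a 1 (-1) h1 h2
      refine ⟨c '' T, hT.image _ hc.continuousOn, mem_image_of_mem _ h3, mem_image_of_mem _ h4, ?_⟩
      rintro ⟨y, hy, he⟩
      exact h5 (hinj he ▸ hy)
    · refine ⟨range (c ∘ Circle.exp), isPreconnected_range (hc.comp Circle.exp.continuous),
        ⟨Complex.arg (1 : Circle), ?_⟩, ⟨Complex.arg (-1 : Circle), ?_⟩, ?_⟩
      · show c (Circle.exp _) = _
        rw [Circle.exp_arg]
      · show c (Circle.exp _) = _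
        rw [Circle.exp_arg]
      · rintro ⟨y, hy⟩
        exact hr ⟨_, hy⟩
  obtain ⟨T, hT, h1, h2, h3⟩ := hT
  have hsub : T ⊆ A ∪ B := by
    rw [hun]
    exact fun x hx hxr => h3 (hxr ▸ hx)
  obtain ⟨x, _, hxA, hxB⟩ := hT A B hA hB hsub ⟨_, h1, hu⟩ ⟨_, h2, hv⟩
  exact Set.disjoint_left.1 hAB hxA hxB

end Pool.Agent.R638.DD
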