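import Pool.Agent.R638.DD.Stm

set_option autoImplicit false

/-! Project DD: Peano continua are locally path connected. -/

namespace Pool.Agent.R638.DD

open Set Topology Filter unitInterval

namespace PathP

section

variable {X : Type} [MetricSpace X]

/-- chains -/
def Chain (C : Set X) (d : ℝ) (a b : X) : Prop :=
  ∃ (K : ℕ) (c : ℕ → X), c 0 = a ∧ (∀ k, K ≤ k → c k = b) ∧ (∀ k, c k ∈ C) ∧
    ∀ k, dist (c k) (c (k + 1)) < d

theorem chain_trans {C : Set X} {d : ℝ} {a b e : X} (h1 : Chain C d a b) (h2 : Chain C d b e) :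
    Chain C d a e := by
  obtain ⟨K1, c1, h1a, h1b, h1c, h1d⟩ := h1
  obtain ⟨K2, c2, h2a, h2b, h2c, h2d⟩ := h2
  refine ⟨K1 + K2, fun k => if k < K1 then c1 k else c2 (k - K1), ?_, ?_, ?_, ?_⟩
  · by_cases h : 0 < K1
    · simp [h, h1a]
    · have hK : K1 = 0 := by omega
      have e1 : b = a := by rw [← h1b 0 (by omega), h1a]
      simp [hK, h2a, e1]
  · intro k hk
    have h : ¬ k < K1 := by omega
    simp only [h, if_false]
    exact h2b _ (by omega)
  · intro k
    by_cases h : k < K1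
    · simp only [h, if_true]
      exact h1c k
    · simp only [h, if_false]
      exact h2c _
  · intro k
    rcases lt_trichotomy (k + 1) K1 with h | h | h
    · have h' : k < K1 := by omega
      simp only [h, h', if_true]
      exact h1d k
    · have h' : k < K1 := by omega
      have h'' : ¬ k + 1 < K1 := by omega
      have e0 : k + 1 - K1 = 0 := by omega
      simp only [h', h'', if_true, if_false, e0, h2a]
      have := h1d k
      rwa [h1b (k + 1) (by omega)] at this
    · have h' : ¬ k < K1 := by omega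
      have h'' : ¬ k + 1 < K1 := by omega
      have e0 : k + 1 - K1 = k - K1 + 1 := by omega
      simp only [h', h'', if_false, e0]
      exact h2d _

theorem chain_one {C : Set X} {d : ℝ} {a b : X} (ha : a ∈ C) (hb : b ∈ C) (h : dist a b < d) :
    Chain C d a b := by
  have hd : 0 < d := lt_of_le_of_lt dist_nonneg h
  refine ⟨1, fun k => if k = 0 then a else b, by simp, ?_, ?_, ?_⟩
  · intro k hk
    have : k ≠ 0 := by omega
    simp [this]
  · intro k
    by_cases hk : k = 0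
    · simp [hk, ha]
    · simp [hk, hb]
  · intro k
    by_cases hk : k = 0
    · simp [hk, h]
    · simp [hk, hd]

theorem chain_of_preconnected {C : Set X} (hC : IsPreconnected C) {d : ℝ} (hd : 0 < d) {a b : X}
    (ha : a ∈ C) (hb : b ∈ C) : Chain C d a b := by
  refine hC.induction₂' (Chain C d) ?_ ?_ ha hb
  · intro x hx
    have h1 : ∀ᶠ y in 𝓝[C] x, y ∈ Metric.ball x d :=
      mem_nhdsWithin_of_mem_nhds (Metric.ball_mem_nhds x hd)
    filter_upwards [h1, self_mem_nhdsWithin] with y hy hyC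
    have hy' : dist y x < d := hy
    exact ⟨chain_one hx hyC (by rwa [dist_comm]), chain_one hyC hx hy'⟩
  · intro x y z _ _ _ h1 h2
    exact chain_trans h1 h2

/-- the states of the construction -/
def Good (x y : X) (d : ℝ) (p : ℕ × (ℕ → X)) : Prop :=
  0 < p.1 ∧ p.2 0 = x ∧ (∀ i, p.1 ≤ i → p.2 i = y) ∧ ∀ i, dist (p.2 i) (p.2 (i + 1)) < d

/-- refinement -/
def Rel (e : ℝ) (p q : ℕ × (ℕ → X)) : Prop :=
  ∃ K : ℕ, 0 < K ∧ q.1 = p.1 * K ∧ ∀ j, dist (q.2 j) (p.2 (j / K)) ≤ e

/-- uniform local connectedness at scale `d`, `e` -/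
def ULC (X : Type) [MetricSpace X] (d e : ℝ) : Prop :=
  ∀ a b : X, dist a b < d → ∃ C : Set X, IsPreconnected C ∧ a ∈ C ∧ b ∈ C ∧ ∀ z ∈ C, dist z a ≤ e

theorem refine_step {x y : X} {d d' e : ℝ} (h : ULC X d e) (he : 0 ≤ e) (hd' : 0 < d')
    {p : ℕ × (ℕ → X)} (hp : Good x y d p) : ∃ q, Good x y d' q ∧ Rel e p q := by
  obtain ⟨hp0, hpx, hpy, hpd⟩ := hp
  have h1 : ∀ i, ∃ (K : ℕ) (c : ℕ → X), c 0 = p.2 i ∧ (∀ k, K ≤ k → c k = p.2 (i + 1)) ∧
      (∀ k, dist (c k) (p.2 i) ≤ e) ∧ ∀ k, dist (c k) (c (k + 1)) < d' := by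
    intro i
    obtain ⟨C, hC, ha, hb, hz⟩ := h _ _ (hpd i)
    obtain ⟨K, c, h0, hK, hc, hdd⟩ := chain_of_preconnected hC hd' ha hb
    exact ⟨K, c, h0, hK, fun k => hz _ (hc k), hdd⟩
  choose K c hc0 hcK hce hcd using h1
  obtain ⟨M, hM⟩ : ∃ M, M = (Finset.range p.1).sup K + 1 := ⟨_, rfl⟩
  have hM0 : 0 < M := by omega
  have hKM : ∀ i < p.1, K i ≤ M := by
    intro i hi
    have := Finset.le_sup (f := K) (Finset.mem_range.2 hi)
    omega
  obtain ⟨c', hc'⟩ : ∃ c' : ℕ → ℕ → X, c' = fun i k => if i < p.1 then c i k else y := ⟨_, rfl⟩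
  have k0 : ∀ i, c' i 0 = p.2 i := by
    intro i
    by_cases hi : i < p.1
    · simp [hc', hi, hc0]
    · simp only [hc', hi, if_false]
      exact (hpy i (by omega)).symm
  have kM : ∀ i, c' i M = p.2 (i + 1) := by
    intro i
    by_cases hi : i < p.1
    · simp only [hc', hi, if_true]
      exact hcK i M (hKM i hi)
    · simp only [hc', hi, if_false]
      exact (hpy (i + 1) (by omega)).symm
  have ke : ∀ i k, dist (c' i k) (p.2 i) ≤ e := by
    intro i k
    by_cases hi : i < p.1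
    · simp only [hc', hi, if_true]
      exact hce i k
    · simp only [hc', hi, if_false]
      rw [hpy i (by omega), dist_self]
      exact he
  have kd : ∀ i k, dist (c' i k) (c' i (k + 1)) < d' := by
    intro i k
    by_cases hi : i < p.1
    · simp only [hc', hi, if_true]
      exact hcd i k
    · simp only [hc', hi, if_false, dist_self]
      exact hd'
  refine ⟨(p.1 * M, fun j => c' (j / M) (j % M)), ⟨Nat.mul_pos hp0 hM0, ?_, ?_, ?_⟩,
    ⟨M, hM0, rfl, ?_⟩⟩
  · show c' (0 / M) (0 % M) = x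
    rw [Nat.zero_div, Nat.zero_mod, k0, hpx]
  · intro j hj
    have h2 : p.1 ≤ j / M := (Nat.le_div_iff_mul_le hM0).2 hj
    have h3 : ¬ j / M < p.1 := by omega
    simp [hc', h3]
  · intro j
    show dist (c' (j / M) (j % M)) (c' ((j + 1) / M) ((j + 1) % M)) < d'
    have hj := Nat.div_add_mod j M
    have hr := Nat.mod_lt j hM0
    generalize j / M = a at *
    generalize j % M = r at *
    subst hj
    by_cases h2 : r + 1 < M
    · have e1 : (M * a + r + 1) / M = a := by
        rw [add_assoc, Nat.mul_add_div hM0, Nat.div_eq_of_lt h2, add_zero]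
      have e2 : (M * a + r + 1) % M = r + 1 := by
        rw [add_assoc, Nat.mul_add_mod, Nat.mod_eq_of_lt h2]
      rw [e1, e2]
      exact kd a r
    · have h3 : r + 1 = M := by omega
      have h4 : M * a + r + 1 = M * (a + 1) := by
        rw [add_assoc, h3]
        ring
      rw [h4, Nat.mul_div_cancel_left _ hM0, Nat.mul_mod_right, k0, ← kM, ← h3]
      exact kd a r
  · intro j
    exact ke _ _

theorem exists_states {x y : X} (δ ε : ℕ → ℝ) (hδ : ∀ n, 0 < δ n) (hε : ∀ n, 0 ≤ ε n)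
    (hU : ∀ n, ULC X (δ n) (ε n)) (hxy : dist x y < δ 0) :
    ∃ s : ℕ → ℕ × (ℕ → X), s 0 = (1, fun i => if i = 0 then x else y) ∧
      ∀ n, Good x y (δ n) (s n) ∧ Rel (ε n) (s n) (s (n + 1)) := by
  have h1 : ∀ (n : ℕ) (p : ℕ × (ℕ → X)), ∃ q : ℕ × (ℕ → X), Good x y (δ n) p →
      (Good x y (δ (n + 1)) q ∧ Rel (ε n) p q) := by
    intro n p
    by_cases hp : Good x y (δ n) p
    · obtain ⟨q, hq⟩ := refine_step (hU n) (hε n) (hδ (n + 1)) hp
      exact ⟨q, fun _ => hq⟩
    · exact ⟨p, fun h => absurd h hp⟩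
  choose F hF using h1
  obtain ⟨s, hs0, hs⟩ : ∃ s : ℕ → ℕ × (ℕ → X), s 0 = (1, fun i => if i = 0 then x else y) ∧
      ∀ n, s (n + 1) = F n (s n) :=
    ⟨fun n => Nat.rec (1, fun i => if i = 0 then x else y) (fun n p => F n p) n, rfl,
      fun n => rfl⟩
  have hg : ∀ n, Good x y (δ n) (s n) := by
    intro n
    induction n with
    | zero =>
      rw [hs0]
      refine ⟨one_pos, by simp, ?_, ?_⟩
      · intro i hi
        have hi' : 1 ≤ i := hi
        have : i ≠ 0 := by omega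
        simp [this]
      · intro i
        by_cases hi : i = 0
        · simp [hi, hxy]
        · simp [hi, hδ 0]
    | succ n ih =>
      rw [hs]
      exact (hF n (s n) ih).1
  refine ⟨s, hs0, fun n => ⟨hg n, ?_⟩⟩
  rw [hs]
  exact (hF n (s n) (hg n)).2

theorem joined {x y : X} [CompleteSpace X] {C : ℝ} (hC : 0 < C) (δ : ℕ → ℝ) (hδ : ∀ n, 0 < δ n)
    (hδ' : ∀ n, δ n ≤ C / 2 / 2 ^ n) (hU : ∀ n, ULC X (δ n) (C / 2 / 2 ^ n))
    (hxy : dist x y < δ 0) : JoinedIn (Metric.ball x (2 * C)) x y := by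
  obtain ⟨s, hs0, hs⟩ := exists_states δ (fun n => C / 2 / 2 ^ n) hδ (fun n => by positivity) hU hxy
  obtain ⟨f, hf⟩ : ∃ f : ℝ → ℕ → X, f = fun (t : ℝ) (n : ℕ) => (s n).2 ⌊t * ((s n).1 : ℝ)⌋₊ :=
    ⟨_, rfl⟩
  have h1 : ∀ t : ℝ, ∀ n, dist (f t n) (f t (n + 1)) ≤ C / 2 / 2 ^ n := by
    intro t n
    obtain ⟨K, hK, hN, hd⟩ := (hs n).2
    have h2 := hd ⌊t * (s (n + 1)).1⌋₊
    have h3 : ⌊t * (s (n + 1)).1⌋₊ / K = ⌊t * (s n).1⌋₊ := by
      rw [← Nat.floor_div_natCast, hN]
      congr 1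
      push_cast
      have hK' : (K : ℝ) ≠ 0 := by exact_mod_cast hK.ne'
      field_simp
    rw [h3] at h2
    rw [hf, dist_comm]
    exact h2
  have hlim : ∀ t : ℝ, ∃ a, Tendsto (f t) atTop (𝓝 a) := fun t =>
    cauchySeq_tendsto_of_complete (cauchySeq_of_le_geometric_two (h1 t))
  choose g hg using hlim
  have h2 : ∀ t n, dist (f t n) (g t) ≤ C / 2 ^ n := fun t n =>
    dist_le_of_le_geometric_two_of_tendsto (h1 t) (hg t) n
  have hN : ∀ n, (0 : ℝ) < (s n).1 := fun n => by exact_mod_cast (hs n).1.1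
  have h3 : ∀ n, ∀ t u : ℝ, 0 ≤ t → t ≤ u → u - t ≤ 1 / (s n).1 → dist (f t n) (f u n) ≤ δ n := by
    intro n t u ht htu hut
    have k1 : u * (s n).1 ≤ t * (s n).1 + 1 := by
      have := mul_le_mul_of_nonneg_right hut (hN n).le
      rw [one_div, inv_mul_cancel₀ (hN n).ne'] at this
      linarith
    have k2 : ⌊u * (s n).1⌋₊ ≤ ⌊t * (s n).1⌋₊ + 1 := by
      rw [← Nat.floor_add_one (mul_nonneg ht (hN n).le)]
      exact Nat.floor_mono k1
    have k3 : ⌊t * (s n).1⌋₊ ≤ ⌊u * (s n).1⌋₊ :=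
      Nat.floor_mono (mul_le_mul_of_nonneg_right htu (hN n).le)
    rw [hf]
    show dist ((s n).2 ⌊t * (s n).1⌋₊) ((s n).2 ⌊u * (s n).1⌋₊) ≤ δ n
    rcases Nat.lt_or_ge ⌊t * (s n).1⌋₊ ⌊u * (s n).1⌋₊ with k4 | k4
    · have k5 : ⌊u * (s n).1⌋₊ = ⌊t * (s n).1⌋₊ + 1 := by omega
      rw [k5]
      exact ((hs n).1.2.2.2 _).le
    · have k5 : ⌊u * (s n).1⌋₊ = ⌊t * (s n).1⌋₊ := by omega
      rw [k5, dist_self]
      exact (hδ n).le
  have h4 : ∀ n, ∀ t u : ℝ, 0 ≤ t → t ≤ u → u - t ≤ 1 / (s n).1 → dist (g t) (g u) ≤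
      3 * C / 2 ^ n := by
    intro n t u ht htu hut
    have k1 := h2 t n
    have k2 := h2 u n
    have k3 := h3 n t u ht htu hut
    have k4 := hδ' n
    have k5 : dist (g t) (g u) ≤ dist (g t) (f t n) + dist (f t n) (f u n) + dist (f u n) (g u) :=
      dist_triangle4 _ _ _ _
    rw [dist_comm (g t) (f t n)] at k5
    have k6 : C / 2 / 2 ^ n ≤ C / 2 ^ n := by
      refine div_le_div_of_nonneg_right ?_ (by positivity)
      linarith
    have k7 : 3 * C / 2 ^ n = 3 * (C / 2 ^ n) := by ring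
    rw [k7]
    linarith
  have hcont : Continuous (fun t : I => g t) := by
    refine UniformContinuous.continuous ?_
    rw [Metric.uniformContinuous_iff]
    intro η hη
    obtain ⟨n, hn⟩ : ∃ n : ℕ, 3 * C / 2 ^ n < η := by
      obtain ⟨n, hn⟩ := exists_pow_lt_of_lt_one (show 0 < η / (3 * C) by positivity)
        (show (1 / 2 : ℝ) < 1 by norm_num)
      refine ⟨n, ?_⟩
      rw [lt_div_iff₀ (by positivity)] at hn
      have e : 3 * C / 2 ^ n = (1 / 2) ^ n * (3 * C) := by
        rw [one_div, inv_pow]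
        field_simp
      rw [e]
      exact hn
    refine ⟨1 / (s n).1, one_div_pos.2 (hN n), ?_⟩
    intro a b hab
    rcases le_total (a : ℝ) b with h | h
    · refine lt_of_le_of_lt (h4 n a b a.2.1 h ?_) hn
      have : dist (a : ℝ) b < 1 / (s n).1 := hab
      rw [Real.dist_eq, abs_sub_comm, abs_of_nonneg (by linarith)] at this
      exact this.le
    · rw [dist_comm]
      refine lt_of_le_of_lt (h4 n b a b.2.1 h ?_) hn
      have : dist (a : ℝ) b < 1 / (s n).1 := hab
      rw [Real.dist_eq, abs_of_nonneg (by linarith)] at this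
      exact this.le
  have hg0 : g 0 = x := by
    have e : f 0 = fun _ => x := by
      funext n
      rw [hf]
      show (s n).2 ⌊(0 : ℝ) * (s n).1⌋₊ = x
      rw [zero_mul, Nat.floor_zero]
      exact (hs n).1.2.1
    have h5 := hg 0
    rw [e] at h5
    exact tendsto_nhds_unique h5 tendsto_const_nhds
  have hg1 : g 1 = y := by
    have e : f 1 = fun _ => y := by
      funext n
      rw [hf]
      show (s n).2 ⌊(1 : ℝ) * (s n).1⌋₊ = y
      rw [one_mul, Nat.floor_natCast]
      exact (hs n).1.2.2.1 _ le_rfl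
    have h5 := hg 1
    rw [e] at h5
    exact tendsto_nhds_unique h5 tendsto_const_nhds
  have hball : ∀ t : ℝ, g t ∈ Metric.ball x (2 * C) := by
    intro t
    have k1 := h2 t 0
    have k2 : dist (f t 0) x < C := by
      have k3 : f t 0 = x ∨ f t 0 = y := by
        rw [hf]
        show (s 0).2 _ = x ∨ (s 0).2 _ = y
        rw [hs0]
        by_cases h : ⌊t * ((1, fun i => if i = 0 then x else y) : ℕ × (ℕ → X)).1⌋₊ = 0
        · left
          simp only [h, if_true]
        · right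
          simp only [h, if_false]
      rcases k3 with k3 | k3
      · rw [k3, dist_self]
        exact hC
      · rw [k3, dist_comm]
        have := hδ' 0
        simp only [pow_zero, div_one] at this
        linarith
    rw [Metric.mem_ball]
    have k4 : dist (g t) x ≤ dist (g t) (f t 0) + dist (f t 0) x := dist_triangle _ _ _
    rw [dist_comm (g t) (f t 0)] at k4
    simp only [pow_zero, div_one] at k1
    linarith
  refine ⟨⟨⟨fun t : I => g t, hcont⟩, ?_, ?_⟩, ?_⟩
  · show g ((0 : I) : ℝ) = x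
    simpa using hg0
  · show g ((1 : I) : ℝ) = y
    simpa using hg1
  · intro t
    exact hball t

theorem ulc [CompactSpace X] [LocallyConnectedSpace X] {e : ℝ} (he : 0 < e) :
    ∃ d : ℝ, 0 < d ∧ ULC X d e := by
  have h1 : ∀ p : X, ∃ V : Set X, IsOpen V ∧ p ∈ V ∧ IsConnected V ∧ V ⊆ Metric.ball p (e / 2) := by
    intro p
    obtain ⟨V, hVb, hVo, hpV, hVc⟩ := locallyConnectedSpace_iff_subsets_isOpen_isConnected.1
      ‹LocallyConnectedSpace X› p (Metric.ball p (e / 2)) (Metric.ball_mem_nhds p (by positivity))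
    exact ⟨V, hVo, hpV, hVc, hVb⟩
  choose V hVo hpV hVc hVb using h1
  obtain ⟨d, hd, hl⟩ := lebesgue_number_lemma_of_metric (s := (univ : Set X)) isCompact_univ hVo
    (fun p _ => mem_iUnion.2 ⟨p, hpV p⟩)
  refine ⟨d, hd, ?_⟩
  intro a b hab
  obtain ⟨p, hp⟩ := hl a (mem_univ a)
  have haV : a ∈ V p := hp (Metric.mem_ball_self hd)
  have hbV : b ∈ V p := hp (by rwa [Metric.mem_ball, dist_comm])
  refine ⟨V p, (hVc p).isPreconnected, haV, hbV, ?_⟩
  intro z hz
  have k1 := hVb p hz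
  have k2 := hVb p haV
  rw [Metric.mem_ball] at k1 k2
  have k3 : dist z a ≤ dist z p + dist p a := dist_triangle _ _ _
  rw [dist_comm p a] at k3
  linarith

theorem lpc (X : Type) [MetricSpace X] [CompactSpace X] [LocallyConnectedSpace X] :
    LocallyPathConnectedSpace X := by
  refine ⟨fun x => ?_⟩
  rw [hasBasis_self]
  intro t ht
  obtain ⟨e, he, het⟩ := Metric.mem_nhds_iff.1 ht
  obtain ⟨C, hCe⟩ : ∃ C : ℝ, C = e / 2 := ⟨_, rfl⟩
  have hC : 0 < C := by
    rw [hCe]
    positivity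
  have h1 : ∀ n : ℕ, ∃ d : ℝ, 0 < d ∧ d ≤ C / 2 / 2 ^ n ∧ ULC X d (C / 2 / 2 ^ n) := by
    intro n
    have hp : 0 < C / 2 / 2 ^ n := by positivity
    obtain ⟨d, hd, hU⟩ := ulc (X := X) hp
    refine ⟨min d (C / 2 / 2 ^ n), lt_min hd hp, min_le_right _ _, ?_⟩
    intro a b hab
    exact hU a b (lt_of_lt_of_le hab (min_le_left _ _))
  choose δ hδ hδ' hU using h1
  have h2 : ∀ y, dist x y < δ 0 → JoinedIn (Metric.ball x (2 * C)) x y := fun y hy =>
    joined hC δ hδ hδ' hU hy
  have e2 : 2 * C = e := by rw [hCe]; ring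
  rw [e2] at h2
  refine ⟨pathComponentIn (Metric.ball x e) x, ?_, ?_, ?_⟩
  · refine mem_of_superset (Metric.ball_mem_nhds x (hδ 0)) ?_
    intro y hy
    rw [Metric.mem_ball, dist_comm] at hy
    exact h2 y hy
  · exact isPathConnected_pathComponentIn (Metric.mem_ball_self he)
  · exact pathComponentIn_subset.trans het

end

end PathP

theorem t_Path : StmPath := by
  intro X _ hX
  have := hX.compact
  have := hX.metrizable
  have := hX.locConn
  letI := TopologicalSpace.metrizableSpaceMetric X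
  exact PathP.lpc X

end Pool.Agent.R638.DD
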