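import Pool.Agent.R638.DD.Stm

set_option autoImplicit false

/-! Project DD, piece PARC: a path contains an arc. -/

namespace Pool.Agent.R638.DD

open Set Topology Filter

namespace PArcAux

variable {X : Type} [TopologicalSpace X]

/-- the closed sets all of whose gaps are collapsed by `g` -/
structure Good (g : ℝ → X) (K : Set ℝ) : Prop where
  cl : IsClosed K
  sub : K ⊆ Icc 0 1
  zero : (0:ℝ) ∈ K
  one : (1:ℝ) ∈ K
  gap : ∀ a ∈ K, ∀ b ∈ K, a < b → (∀ x ∈ K, a < x → x < b → False) → g a = g b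

theorem exists_min [T2Space X] (g : ℝ → X) (hg : Continuous g) :
    ∃ K, Minimal (· ∈ {K | Good g K}) K := by
  refine zorn_superset {K | Good g K} fun c hc hchain => ?_
  rcases c.eq_empty_or_nonempty with h0 | hne
  · refine ⟨Icc 0 1, ⟨isClosed_Icc, Subset.rfl, by simp, by simp, fun a ha b hb hab h => ?_⟩, ?_⟩
    · exfalso
      exact h ((a + b) / 2) ⟨by linarith [ha.1, hb.1], by linarith [ha.2, hb.2]⟩ (by linarith)
        (by linarith)
    · rw [h0]
      intro s hs
      exact absurd hs (notMem_empty s)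
  refine ⟨⋂₀ c, ⟨isClosed_sInter fun K hK => (hc hK).cl, ?_, fun K hK => (hc hK).zero,
    fun K hK => (hc hK).one, ?_⟩, fun s hs => sInter_subset_of_mem hs⟩
  · obtain ⟨K, hK⟩ := hne
    exact (sInter_subset_of_mem hK).trans (hc hK).sub
  intro a ha b hb hab hgap
  by_contra hne'
  -- separate
  have hopen : IsOpen {p : ℝ × ℝ | g p.1 ≠ g p.2} :=
    isOpen_ne_fun (hg.comp continuous_fst) (hg.comp continuous_snd)
  obtain ⟨ε, hε, hball⟩ := Metric.isOpen_iff.1 hopen (a, b) hne'
  obtain ⟨δ, hδ0, hδε, hδab⟩ : ∃ δ : ℝ, 0 < δ ∧ δ < ε ∧ δ < (b - a) / 2 :=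
    ⟨min ε ((b - a) / 2) / 2, by
      have : 0 < min ε ((b - a) / 2) := lt_min hε (by linarith)
      linarith, by
      have := min_le_left ε ((b - a) / 2)
      have h3 : 0 < min ε ((b - a) / 2) := lt_min hε (by linarith)
      linarith, by
      have := min_le_right ε ((b - a) / 2)
      have h3 : 0 < min ε ((b - a) / 2) := lt_min hε (by linarith)
      linarith⟩
  have hsep : ∀ s ∈ Icc a (a + δ), ∀ t ∈ Icc (b - δ) b, g s ≠ g t := by
    intro s hs t ht
    have : (s, t) ∈ Metric.ball (a, b) ε := by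
      rw [Metric.mem_ball, Prod.dist_eq, max_lt_iff]
      constructor
      · rw [Real.dist_eq, abs_lt]
        constructor <;> linarith [hs.1, hs.2]
      · rw [Real.dist_eq, abs_lt]
        constructor <;> linarith [ht.1, ht.2]
    exact hball this
  -- compactness
  have hK : ∃ K ∈ c, Disjoint (Icc (a + δ) (b - δ)) K := by
    by_contra hcon
    push Not at hcon
    have : Nonempty c := hne.to_subtype
    have h1 : (⋂ K : c, (Icc (a + δ) (b - δ) ∩ K.1)).Nonempty := by
      refine IsCompact.nonempty_iInter_of_directed_nonempty_isCompact_isClosed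
        (fun K : c => Icc (a + δ) (b - δ) ∩ K.1) ?_ ?_ ?_ ?_
      · intro K K'
        rcases hchain.total K.2 K'.2 with h | h
        · exact ⟨K, Subset.rfl, inter_subset_inter_right _ h⟩
        · exact ⟨K', inter_subset_inter_right _ h, Subset.rfl⟩
      · intro K
        have := hcon K.1 K.2
        rwa [not_disjoint_iff_nonempty_inter] at this
      · intro K
        exact isCompact_Icc.inter_right (hc K.2).cl
      · intro K
        exact isClosed_Icc.inter (hc K.2).cl
    obtain ⟨x, hx⟩ := h1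
    rw [mem_iInter] at hx
    have hxI : x ∈ Icc (a + δ) (b - δ) := by
      obtain ⟨K, hK⟩ := hne
      exact (hx ⟨K, hK⟩).1
    refine hgap x (fun K hK => (hx ⟨K, hK⟩).2) ?_ ?_
    · linarith [hxI.1]
    · linarith [hxI.2]
  obtain ⟨K, hKc, hKd⟩ := hK
  have hGK := hc hKc
  obtain ⟨a', ha'⟩ := (isCompact_Icc.inter_right hGK.cl : IsCompact (Icc a (a + δ) ∩ K)).exists_isGreatest
    ⟨a, ⟨le_rfl, by linarith⟩, ha K hKc⟩
  obtain ⟨b', hb'⟩ := (isCompact_Icc.inter_right hGK.cl : IsCompact (Icc (b - δ) b ∩ K)).exists_isLeast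
    ⟨b, ⟨by linarith, le_rfl⟩, hb K hKc⟩
  refine hsep a' ha'.1.1 b' hb'.1.1 (hGK.gap a' ha'.1.2 b' hb'.1.2 ?_ ?_)
  · linarith [ha'.1.1.2, hb'.1.1.1]
  · intro x hx h1 h2
    rcases le_or_gt x (a + δ) with h3 | h3
    · have := ha'.2 ⟨⟨by linarith [ha'.1.1.1], h3⟩, hx⟩
      linarith
    · rcases le_or_gt (b - δ) x with h4 | h4
      · have := hb'.2 ⟨⟨h4, by linarith [hb'.1.1.2]⟩, hx⟩
        linarith
      · exact Set.disjoint_left.1 hKd ⟨h3.le, h4.le⟩ hx

theorem min_inj (g : ℝ → X) {K : Set ℝ} (hK : Minimal (· ∈ {K | Good g K}) K) {x y : ℝ}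
    (hx : x ∈ K) (hy : y ∈ K) (hxy : x < y) (h : g x = g y) :
    ∀ z ∈ K, x < z → z < y → False := by
  have hG : Good g K := hK.prop
  have hG' : Good g (K \ Ioo x y) := by
    refine ⟨?_, sdiff_subset.trans hG.sub, ⟨hG.zero, fun h0 => ?_⟩, ⟨hG.one, fun h1 => ?_⟩, ?_⟩
    · rw [sdiff_eq]
      exact hG.cl.inter isOpen_Ioo.isClosed_compl
    · linarith [h0.1, (hG.sub hx).1]
    · linarith [h1.2, (hG.sub hy).2]
    · intro a ha b hb hab hgap
      by_cases hz : ∃ z ∈ K, a < z ∧ z < b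
      · obtain ⟨z, hz, haz, hzb⟩ := hz
        have hzI : z ∈ Ioo x y := by
          by_contra hcon
          exact hgap z ⟨hz, hcon⟩ haz hzb
        have h1 : x ≤ a := by
          by_contra hcon
          push Not at hcon
          exact hgap x ⟨hx, fun h' => lt_irrefl _ h'.1⟩ hcon (by linarith [hzI.1])
        have h2 : b ≤ y := by
          by_contra hcon
          push Not at hcon
          exact hgap y ⟨hy, fun h' => lt_irrefl _ h'.2⟩ (by linarith [hzI.2]) hcon
        have h3 : a = x := by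
          by_contra hcon
          exact ha.2 ⟨lt_of_le_of_ne h1 (Ne.symm hcon), by linarith [hzI.2]⟩
        have h4 : b = y := by
          by_contra hcon
          exact hb.2 ⟨by linarith [hzI.1], lt_of_le_of_ne h2 hcon⟩
        rw [h3, h4, h]
      · refine hG.gap a ha.1 b hb.1 hab fun z h1 h2 h3 => hz ⟨z, h1, h2, h3⟩
  have hle := hK.le_of_le hG' sdiff_subset
  intro z hz h1 h2
  exact (hle hz).2 ⟨h1, h2⟩

/-- Urysohn functions -/
theorem ury [T2Space X] (g : ℝ → X) (hg : Continuous g) {K : Set ℝ}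
    (hK : Minimal (· ∈ {K | Good g K}) K) {s z t : ℝ} (hz : z ∈ K) (hsz : s < z) (hzt : z < t) :
    ∃ u : K → ℝ, Continuous u ∧ Monotone u ∧ (∀ x, 0 ≤ u x ∧ u x ≤ 1) ∧
      (∀ x y : K, x < y → g x = g y → u x = u y) ∧ (∀ x : K, (x:ℝ) ≤ s → u x = 0) ∧
      ∀ x : K, t ≤ (x:ℝ) → u x = 1 := by
  have hG : Good g K := hK.prop
  have hKc : IsCompact K := isCompact_Icc.of_isClosed_subset hG.cl hG.sub
  have : CompactSpace K := isCompact_iff_compactSpace.1 hKc
  have : CompactSpace (g '' K) := isCompact_iff_compactSpace.1 (hKc.image hg)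
  let π : K → g '' K := fun x => ⟨g x, x, x.2, rfl⟩
  have hπ : Continuous π := Continuous.subtype_mk (hg.comp continuous_subtype_val) _
  have h0 : IsClosed (π '' {x : K | (x:ℝ) ≤ s}) :=
    ((isClosed_le continuous_subtype_val continuous_const).isCompact.image hπ).isClosed
  have h1 : IsClosed (π '' {x : K | t ≤ (x:ℝ)}) :=
    ((isClosed_le continuous_const continuous_subtype_val).isCompact.image hπ).isClosed
  have hd : Disjoint (π '' {x : K | (x:ℝ) ≤ s}) (π '' {x : K | t ≤ (x:ℝ)}) := by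
    rw [Set.disjoint_left]
    rintro _ ⟨x, hx, rfl⟩ ⟨y, hy, hyx⟩
    have hx' : (x:ℝ) ≤ s := hx
    have hy' : t ≤ (y:ℝ) := hy
    have h2 : g y = g x := congrArg Subtype.val hyx
    exact min_inj g hK x.2 y.2 (by linarith) h2.symm z hz (by linarith) (by linarith)
  obtain ⟨f, hf0, hf1, hf⟩ := exists_continuous_zero_one_of_isClosed h0 h1 hd
  obtain ⟨F, hF⟩ : ∃ F : K → ℝ, ∀ x, F x = f (π x) := ⟨_, fun _ => rfl⟩
  have hFc : Continuous F := by
    have : F = fun x => f (π x) := funext hF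
    rw [this]
    exact f.continuous.comp hπ
  have hF01 : ∀ x, 0 ≤ F x ∧ F x ≤ 1 := fun x => by
    rw [hF]
    exact ⟨(hf _).1, (hf _).2⟩
  have hFs : ∀ x : K, (x:ℝ) ≤ s → F x = 0 := fun x hx => by
    rw [hF]
    exact hf0 ⟨x, hx, rfl⟩
  have hFt : ∀ x : K, t ≤ (x:ℝ) → F x = 1 := fun x hx => by
    rw [hF]
    exact hf1 ⟨x, hx, rfl⟩
  have hFg : ∀ x y : K, g x = g y → F x = F y := fun x y h => by
    rw [hF, hF]
    have : π x = π y := Subtype.ext h
    rw [this]
  clear hF hf hf0 hf1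
  have hbdd : ∀ x : K, BddAbove (F '' Iic x) := fun x => ⟨1, by
    rintro _ ⟨y, _, rfl⟩
    exact (hF01 y).2⟩
  have hne : ∀ x : K, (F '' Iic x).Nonempty := fun x => ⟨_, x, mem_Iic.2 le_rfl, rfl⟩
  obtain ⟨u, hu⟩ : ∃ u : K → ℝ, ∀ x, u x = sSup (F '' Iic x) := ⟨_, fun _ => rfl⟩
  have hle : ∀ x y : K, y ≤ x → F y ≤ u x := fun x y hyx => by
    rw [hu]
    exact le_csSup (hbdd x) ⟨y, hyx, rfl⟩
  have hub : ∀ (x : K) (c : ℝ), (∀ y ≤ x, F y ≤ c) → u x ≤ c := fun x c hc => by
    rw [hu]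
    refine csSup_le (hne x) ?_
    rintro _ ⟨y, hy, rfl⟩
    exact hc y hy
  have hmono : Monotone u := fun x y hxy => hub x _ fun z hz => hle y z (hz.trans hxy)
  refine ⟨u, ?_, hmono, fun x => ⟨(hF01 x).1.trans (hle x x le_rfl), hub x 1 fun y _ => (hF01 y).2⟩,
    ?_, ?_, ?_⟩
  · rw [Metric.continuous_iff]
    intro x ε hε
    obtain ⟨δ, hδ, hFδ⟩ := Metric.continuous_iff.1 hFc x (ε / 4) (by positivity)
    refine ⟨δ, hδ, fun y hy => ?_⟩
    have hyd : |(y:ℝ) - x| < δ := hy
    have hyd' := abs_lt.1 hyd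
    have hcl : ∀ w : K, |(w:ℝ) - x| < δ → |F w - F x| < ε / 4 := fun w hw => hFδ w hw
    rw [Real.dist_eq]
    have hFy := abs_lt.1 (hcl y hyd)
    rcases le_total x y with hxy | hxy
    · have hxy' : (x:ℝ) ≤ y := hxy
      have h2 : u y ≤ u x + ε / 4 := by
        refine hub y _ fun w hw => ?_
        have hw' : (w:ℝ) ≤ y := hw
        rcases le_total w x with hwx | hwx
        · have := hle x w hwx
          linarith
        · have hwx' : (x:ℝ) ≤ w := hwx
          have h3 := abs_lt.1 (hcl w (by rw [abs_lt]; constructor <;> linarith))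
          have := hle x x le_rfl
          linarith
      have h3 := hmono hxy
      rw [abs_lt]
      constructor <;> linarith
    · have hxy' : (y:ℝ) ≤ x := hxy
      have h2 : u x ≤ u y + ε / 2 := by
        refine hub x _ fun w hw => ?_
        have hw' : (w:ℝ) ≤ x := hw
        rcases le_total w y with hwx | hwx
        · have := hle y w hwx
          linarith
        · have hwx' : (y:ℝ) ≤ w := hwx
          have h3 := abs_lt.1 (hcl w (by rw [abs_lt]; constructor <;> linarith))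
          have := hle y y le_rfl
          linarith
      have h3 := hmono hxy
      rw [abs_lt]
      constructor <;> linarith
  · intro x y hxy hgxy
    refine le_antisymm (hmono hxy.le) (hub y _ fun w hw => ?_)
    rcases le_or_gt w x with h2 | h2
    · exact hle x w h2
    · rcases hw.eq_or_lt with h3 | h3
      · rw [h3, ← hFg x y hgxy]
        exact hle x x le_rfl
      · exact (min_inj g hK x.2 y.2 hxy hgxy w w.2 h2 h3).elim
  · intro x hx
    refine le_antisymm (hub x 0 fun w hw => ?_) ((hF01 x).1.trans (hle x x le_rfl))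
    have hw' : (w:ℝ) ≤ x := hw
    rw [hFs w (hw'.trans hx)]
  · intro x hx
    refine le_antisymm (hub x 1 fun w _ => (hF01 w).2) ?_
    rw [← hFt x hx]
    exact hle x x le_rfl

/-- the monotone function -/
theorem exists_h [T2Space X] (g : ℝ → X) (hg : Continuous g) {K : Set ℝ}
    (hK : Minimal (· ∈ {K | Good g K}) K) :
    ∃ h : K → ℝ, Continuous h ∧ Monotone h ∧ ∀ x y : K, x < y → (g x = g y ↔ h x = h y) := by
  classical
  have hG : Good g K := hK.prop
  have hex : ∀ p : ℚ × ℚ, ∃ u : K → ℝ, Continuous u ∧ Monotone u ∧ (∀ x, 0 ≤ u x ∧ u x ≤ 1) ∧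
      (∀ x y : K, x < y → g x = g y → u x = u y) ∧
      ((∃ z ∈ K, (p.1:ℝ) < z ∧ z < p.2) → (∀ x : K, (x:ℝ) ≤ p.1 → u x = 0) ∧
      ∀ x : K, (p.2 : ℝ) ≤ (x:ℝ) → u x = 1) := by
    intro p
    by_cases hp : ∃ z ∈ K, (p.1:ℝ) < z ∧ z < p.2
    · obtain ⟨z, hz, h1, h2⟩ := hp
      obtain ⟨u, a1, a2, a3, a4, a5, a6⟩ := ury g hg hK hz h1 h2
      exact ⟨u, a1, a2, a3, a4, fun _ => ⟨a5, a6⟩⟩
    · exact ⟨fun _ => 0, continuous_const, fun _ _ _ => le_rfl, fun _ => ⟨le_rfl, zero_le_one⟩,
        fun _ _ _ _ => rfl, fun h => absurd h hp⟩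
  choose u hu1 hu2 hu3 hu4 hu5 using hex
  obtain ⟨e, he⟩ := exists_surjective_nat (ℚ × ℚ)
  have hgeo : Summable fun n : ℕ => ((1:ℝ) / 2) ^ n := summable_geometric_two
  have hbd : ∀ (n : ℕ) (x : K), ‖((1:ℝ) / 2) ^ n * u (e n) x‖ ≤ (1 / 2) ^ n := by
    intro n x
    rw [norm_mul, Real.norm_of_nonneg (by positivity), Real.norm_of_nonneg (hu3 _ _).1]
    exact mul_le_of_le_one_right (by positivity) (hu3 _ _).2
  have hsum : ∀ x : K, Summable fun n : ℕ => ((1:ℝ) / 2) ^ n * u (e n) x := fun x =>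
    Summable.of_norm_bounded hgeo fun n => hbd n x
  refine ⟨fun x => ∑' n : ℕ, ((1:ℝ) / 2) ^ n * u (e n) x, ?_, ?_, ?_⟩
  · exact continuous_tsum (fun n => continuous_const.mul (hu1 _)) hgeo hbd
  · intro x y hxy
    exact (hsum x).tsum_le_tsum (fun n => mul_le_mul_of_nonneg_left (hu2 _ hxy) (by positivity))
      (hsum y)
  · intro x y hxy
    constructor
    · intro h
      refine tsum_congr fun n => ?_
      rw [hu4 _ x y hxy h]
    · intro h
      by_contra hne
      obtain ⟨z, hz, h1, h2⟩ : ∃ z ∈ K, (x:ℝ) < z ∧ z < y := by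
        by_contra hcon
        exact hne (hG.gap x x.2 y y.2 hxy fun z a b c => hcon ⟨z, a, b, c⟩)
      obtain ⟨s, hs1, hs2⟩ := exists_rat_btwn h1
      obtain ⟨t, ht1, ht2⟩ := exists_rat_btwn h2
      obtain ⟨n, hn⟩ := he (s, t)
      have h3 := hu5 (s, t) ⟨z, hz, hs2, ht1⟩
      refine absurd h (ne_of_lt ?_)
      refine (hsum x).tsum_lt_tsum (i := n)
        (fun n => mul_le_mul_of_nonneg_left (hu2 _ hxy.le) (by positivity)) ?_ (hsum y)
      rw [hn, h3.1 x hs1.le, h3.2 y ht2.le]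
      simp

end PArcAux

open PArcAux in
theorem t_PArc : StmPArc := by
  intro X _ _ u v huv γ
  obtain ⟨g, hgd⟩ : ∃ g : ℝ → X, g = γ.extend := ⟨_, rfl⟩
  have hg : Continuous g := by rw [hgd]; exact γ.continuous_extend
  have hg0 : g 0 = u := by rw [hgd]; exact γ.extend_zero
  have hg1 : g 1 = v := by rw [hgd]; exact γ.extend_one
  have hgr : ∀ x, g x ∈ range γ := by
    intro x
    rw [hgd, ← γ.extend_range]
    exact ⟨x, rfl⟩
  obtain ⟨K, hK⟩ := exists_min g hg
  have hG : Good g K := hK.prop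
  have hKc : IsCompact K := isCompact_Icc.of_isClosed_subset hG.cl hG.sub
  have : CompactSpace K := isCompact_iff_compactSpace.1 hKc
  obtain ⟨h, hhc, hhm, hh⟩ := exists_h g hg hK
  obtain ⟨z0, hz0⟩ : ∃ z : K, z = ⟨0, hG.zero⟩ := ⟨_, rfl⟩
  obtain ⟨z1, hz1⟩ : ∃ z : K, z = ⟨1, hG.one⟩ := ⟨_, rfl⟩
  have hz01 : z0 < z1 := by
    rw [hz0, hz1]
    exact (zero_lt_one : (0:ℝ) < 1)
  have hle0 : ∀ x : K, z0 ≤ x := fun x => by
    rw [hz0]
    exact (hG.sub x.2).1
  have hle1 : ∀ x : K, x ≤ z1 := fun x => by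
    rw [hz1]
    exact (hG.sub x.2).2
  have hg0' : g z0 = u := by rw [hz0]; exact hg0
  have hg1' : g z1 = v := by rw [hz1]; exact hg1
  have hlt : h z0 < h z1 := by
    refine lt_of_le_of_ne (hhm hz01.le) fun heq => ?_
    have := (hh z0 z1 hz01).2 heq
    rw [hg0', hg1'] at this
    exact huv this
  -- equality of values
  have hiff : ∀ x y : K, g x = g y ↔ h x = h y := by
    intro x y
    rcases lt_trichotomy x y with h1 | h1 | h1
    · exact hh x y h1
    · rw [h1]
      exact ⟨fun _ => rfl, fun _ => rfl⟩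
    · rw [eq_comm, hh y x h1, eq_comm]
  have hsurj : ∀ t ∈ Icc (h z0) (h z1), ∃ x : K, h x = t := by
    intro t ht
    by_contra hcon
    push Not at hcon
    obtain ⟨a, ha⟩ := (isClosed_le hhc continuous_const : IsClosed {x | h x ≤ t}).isCompact.exists_isGreatest
      ⟨z0, ht.1⟩
    obtain ⟨b, hb⟩ := (isClosed_le continuous_const hhc : IsClosed {x | t ≤ h x}).isCompact.exists_isLeast
      ⟨z1, ht.2⟩
    have h1 : h a < t := lt_of_le_of_ne ha.1 (hcon a)
    have h2 : t < h b := lt_of_le_of_ne hb.1 (hcon b).symm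
    have h3 : a < b := by
      by_contra hcon'
      push Not at hcon'
      linarith [hhm hcon']
    have h4 : g a = g b := by
      refine hG.gap a a.2 b b.2 h3 fun x hx h5 h6 => ?_
      rcases le_or_gt (h ⟨x, hx⟩) t with h7 | h7
      · exact absurd (ha.2 h7) (not_le.2 h5)
      · exact absurd (hb.2 h7.le) (not_le.2 h6)
    have h5 := (hiff a b).1 h4
    linarith
  -- the quotient map
  have hd : 0 < h z1 - h z0 := by linarith
  let k : K → unitInterval := fun x => ⟨(h x - h z0) / (h z1 - h z0),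
    div_nonneg (by linarith [hhm (hle0 x)]) hd.le,
    (div_le_one hd).2 (by linarith [hhm (hle1 x)])⟩
  have hkc : Continuous k := Continuous.subtype_mk ((hhc.sub continuous_const).div_const _) _
  have hks : Function.Surjective k := by
    intro t
    obtain ⟨x, hx⟩ := hsurj (h z0 + t * (h z1 - h z0)) ⟨by
      have := mul_nonneg t.2.1 hd.le
      linarith, by
      have := mul_le_mul_of_nonneg_right t.2.2 hd.le
      linarith⟩
    refine ⟨x, Subtype.ext ?_⟩
    change (h x - h z0) / (h z1 - h z0) = t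
    rw [hx, add_sub_cancel_left, mul_div_assoc, div_self hd.ne', mul_one]
  have hkh : ∀ x y : K, k x = k y ↔ h x = h y := by
    intro x y
    constructor
    · intro h1
      have h2 : (h x - h z0) / (h z1 - h z0) = (h y - h z0) / (h z1 - h z0) :=
        congrArg Subtype.val h1
      rw [div_left_inj' hd.ne'] at h2
      linarith
    · intro h1
      apply Subtype.ext
      change (h x - h z0) / (h z1 - h z0) = (h y - h z0) / (h z1 - h z0)
      rw [h1]
  have hq : IsQuotientMap k := hkc.isClosedMap.isQuotientMap hkc hks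
  choose r hr using hks
  have hrk : ∀ x : K, g (r (k x)) = g x := fun x => by
    rw [hiff, ← hkh, hr]
  have hcont : Continuous fun t : unitInterval => g (r t) := by
    rw [hq.continuous_iff]
    have : (fun t : unitInterval => g (r t)) ∘ k = fun x : K => g x := funext hrk
    rw [this]
    exact hg.comp continuous_subtype_val
  refine ⟨⟨⟨fun t => g (r t), hcont⟩, ?_, ?_⟩, ?_, ?_⟩
  · have h1 : k z0 = 0 := by
      apply Subtype.ext
      change (h z0 - h z0) / (h z1 - h z0) = 0
      rw [sub_self, zero_div]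
    change g (r 0) = u
    rw [← h1, hrk, hg0']
  · have h1 : k z1 = 1 := by
      apply Subtype.ext
      change (h z1 - h z0) / (h z1 - h z0) = 1
      exact div_self hd.ne'
    change g (r 1) = v
    rw [← h1, hrk, hg1']
  · intro t t' htt'
    have h1 : g (r t) = g (r t') := htt'
    rw [hiff, ← hkh, hr, hr] at h1
    exact h1
  · rintro _ ⟨t, rfl⟩
    exact hgr _

end Pool.Agent.R638.DD
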