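import Pool.Agent.R638.DD.Stm

set_option autoImplicit false

/-! Project DD, piece PATH: Peano continua are locally path connected. -/

namespace Pool.Agent.R638.DD

open Set Topology Filter Metric

namespace PathAux

variable {X : Type} [MetricSpace X]

/-- `x` and `y` lie in a preconnected set of diameter at most `ε`. -/
def Close (ε : ℝ) (x y : X) : Prop :=
  ∃ C : Set X, IsPreconnected C ∧ x ∈ C ∧ y ∈ C ∧ ∀ a ∈ C, ∀ b ∈ C, dist a b ≤ ε

theorem Close.symm {ε : ℝ} {x y : X} (h : Close ε x y) : Close ε y x := by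
  obtain ⟨C, h1, h2, h3, h4⟩ := h
  exact ⟨C, h1, h3, h2, h4⟩

theorem Close.refl {ε : ℝ} (hε : 0 ≤ ε) (x : X) : Close ε x x :=
  ⟨{x}, isPreconnected_singleton, rfl, rfl, by
    rintro a rfl b rfl
    simpa using hε⟩

theorem Close.dist_le {ε : ℝ} {x y : X} (h : Close ε x y) : dist x y ≤ ε := by
  obtain ⟨C, h1, h2, h3, h4⟩ := h
  exact h4 _ h2 _ h3

theorem unif [CompactSpace X] [LocallyConnectedSpace X] (ε : ℝ) (hε : 0 < ε) :
    ∃ δ > 0, ∀ x y : X, dist x y < δ → Close ε x y := by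
  have hV : ∀ z : X, ∃ V : Set X, V ⊆ ball z (ε / 2) ∧ IsOpen V ∧ z ∈ V ∧ IsConnected V := fun z =>
    locallyConnectedSpace_iff_subsets_isOpen_isConnected.1 inferInstance z _
      (ball_mem_nhds z (by linarith))
  choose V hV1 hV2 hV3 hV4 using hV
  obtain ⟨δ, hδ, hL⟩ := lebesgue_number_lemma_of_metric (isCompact_univ (X := X)) hV2
    (fun z _ => mem_iUnion.2 ⟨z, hV3 z⟩)
  refine ⟨δ, hδ, fun x y hxy => ?_⟩
  obtain ⟨z, hz⟩ := hL x (mem_univ x)
  refine ⟨V z, (hV4 z).isPreconnected, hz (mem_ball_self hδ), hz (by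
    rw [mem_ball, dist_comm]; exact hxy), fun a ha b hb => ?_⟩
  have h1 := mem_ball.1 (hV1 z ha)
  have h2 := mem_ball.1 (hV1 z hb)
  have h3 := dist_triangle_right a b z
  linarith

/-- Close points can be joined by a finite chain of closer links. -/
theorem chain [CompactSpace X] [LocallyConnectedSpace X] {ε ε' : ℝ} (hε' : 0 < ε') {x y : X}
    (h : Close ε x y) :
    ∃ (q : ℕ → X) (L : ℕ), q 0 = x ∧ (∀ j, L ≤ j → q j = y) ∧
      (∀ j, Close ε' (q j) (q (j + 1))) ∧ ∀ j, dist x (q j) ≤ ε := by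
  obtain ⟨C, h1, h2, h3, h4⟩ := h
  obtain ⟨δ, hδ, hU⟩ := unif (X := X) ε' hε'
  have key : Relation.ReflTransGen (fun a b => b ∈ C ∧ Close ε' a b) x y := by
    apply h1.induction₂' (Relation.ReflTransGen (fun a b => b ∈ C ∧ Close ε' a b))
      (fun a ha => ?_) (fun a b c ha hb hc => Relation.ReflTransGen.trans) h2 h3
    have : ∀ᶠ b in 𝓝[C] a, dist a b < δ := by
      have h5 : ball a δ ∈ 𝓝 a := ball_mem_nhds a hδ
      filter_upwards [mem_nhdsWithin_of_mem_nhds h5] with b hb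
      rw [dist_comm]; exact hb
    filter_upwards [this, self_mem_nhdsWithin] with b hb hbC
    have h6 := hU a b hb
    exact ⟨Relation.ReflTransGen.single ⟨hbC, h6⟩, Relation.ReflTransGen.single ⟨ha, h6.symm⟩⟩
  have key2 : ∀ a, Relation.ReflTransGen (fun a b => b ∈ C ∧ Close ε' a b) a y → a ∈ C →
      ∃ (q : ℕ → X) (L : ℕ), q 0 = a ∧ (∀ j, L ≤ j → q j = y) ∧
      (∀ j, Close ε' (q j) (q (j + 1))) ∧ ∀ j, q j ∈ C := by
    intro a ha
    induction ha using Relation.ReflTransGen.head_induction_on with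
    | refl =>
      intro _
      exact ⟨fun _ => y, 0, rfl, fun _ _ => rfl, fun _ => Close.refl hε'.le y, fun _ => h3⟩
    | head hab hbc ih =>
      rename_i a b
      intro haC
      obtain ⟨q, L, hq0, hqL, hqc, hqC⟩ := ih hab.1
      refine ⟨fun n => Nat.casesOn n a q, L + 1, rfl, ?_, ?_, ?_⟩
      · intro j hj
        cases j with
        | zero => omega
        | succ j => exact hqL j (by omega)
      · intro j
        cases j with
        | zero => simpa [hq0] using hab.2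
        | succ j => exact hqc j
      · intro j
        cases j with
        | zero => exact haC
        | succ j => exact hqC j
  obtain ⟨q, L, hq0, hqL, hqc, hqC⟩ := key2 x key h2
  exact ⟨q, L, hq0, hqL, hqc, fun j => h4 _ h2 _ (hqC j)⟩

/-- The state: the number of links and the chain. -/
def Good (ε : ℝ) (x y : X) (s : ℕ × (ℕ → X)) : Prop :=
  0 < s.1 ∧ s.2 0 = x ∧ (∀ j, s.1 ≤ j → s.2 j = y) ∧ ∀ j, Close ε (s.2 j) (s.2 (j + 1))

/-- The step function of a chain. -/
noncomputable def F (s : ℕ × (ℕ → X)) (t : ℝ) : X := s.2 ⌊t * (s.1 : ℝ)⌋₊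

theorem refine_step [CompactSpace X] [LocallyConnectedSpace X] {ε ε' : ℝ} (hε : 0 ≤ ε)
    (hε' : 0 < ε') {x y : X} (s : ℕ × (ℕ → X)) (hs : Good ε x y s) :
    ∃ s', Good ε' x y s' ∧ ∀ t : ℝ, dist (F s t) (F s' t) ≤ ε := by
  obtain ⟨N, p⟩ := s
  obtain ⟨hN, hp0, hpN, hpc⟩ := hs
  simp only at hN hp0 hpN hpc
  have hq : ∀ i, ∃ (q : ℕ → X) (L : ℕ), q 0 = p i ∧ (∀ j, L ≤ j → q j = p (i + 1)) ∧
      (∀ j, Close ε' (q j) (q (j + 1))) ∧ (∀ j, dist (p i) (q j) ≤ ε) ∧
      (N ≤ i → ∀ j, q j = y) := by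
    intro i
    by_cases hi : N ≤ i
    · have h1 : p i = y := hpN i hi
      have h2 : p (i + 1) = y := hpN _ (by omega)
      exact ⟨fun _ => y, 0, h1.symm, fun _ _ => h2.symm, fun _ => Close.refl hε'.le y,
        fun _ => by simpa [h1] using hε, fun _ _ => rfl⟩
    · obtain ⟨q, L, h1, h2, h3, h4⟩ := chain hε' (hpc i)
      exact ⟨q, L, h1, h2, h3, h4, fun h => absurd h hi⟩
  choose q L hq0 hqL hqc hqd hqN using hq
  set M := (Finset.range N).sup L + 1 with hM
  have hMpos : 0 < M := by omega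
  have hLM : ∀ i, q i M = p (i + 1) := by
    intro i
    by_cases hi : N ≤ i
    · rw [hqN i hi, hpN _ (by omega)]
    · apply hqL
      have : L i ≤ (Finset.range N).sup L := Finset.le_sup (Finset.mem_range.2 (by omega))
      omega
  refine ⟨(N * M, fun n => q (n / M) (n % M)), ⟨Nat.mul_pos hN hMpos, ?_, ?_, ?_⟩, ?_⟩
  · simp [hq0, hp0]
  · intro j hj
    apply hqN
    exact (Nat.le_div_iff_mul_le hMpos).2 hj
  · intro j
    show Close ε' (q (j / M) (j % M)) (q ((j + 1) / M) ((j + 1) % M))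
    by_cases hj : (j + 1) % M = 0
    · have e1 : j % M + 1 = M := by
        have h5 := Nat.mod_lt j hMpos
        have h6 : (j + 1) % M = (j % M + 1) % M := by rw [Nat.mod_add_mod]
        rw [h6] at hj
        rcases Nat.lt_or_ge (j % M + 1) M with h7 | h7
        · rw [Nat.mod_eq_of_lt h7] at hj; omega
        · omega
      have e2 : (j + 1) / M = j / M + 1 := by
        have h5 := Nat.div_add_mod j M
        have h6 : j + 1 = M * (j / M + 1) := by
          rw [Nat.mul_add, mul_one]; omega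
        rw [h6, Nat.mul_div_cancel_left _ hMpos]
      rw [hj, e2, hq0]
      have h7 := hqc (j / M) (j % M)
      rw [e1, hLM] at h7
      exact h7
    · have e1 : j % M + 1 < M := by
        have h5 := Nat.mod_lt j hMpos
        rcases Nat.lt_or_ge (j % M + 1) M with h7 | h7
        · exact h7
        · exfalso
          apply hj
          have h8 : j % M + 1 = M := by omega
          have h6 : (j + 1) % M = (j % M + 1) % M := by rw [Nat.mod_add_mod]
          rw [h6, h8, Nat.mod_self]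
      have e2 : (j + 1) % M = j % M + 1 := by
        have h6 : (j + 1) % M = (j % M + 1) % M := by rw [Nat.mod_add_mod]
        rw [h6, Nat.mod_eq_of_lt e1]
      have e3 : (j + 1) / M = j / M := by
        have h5 := Nat.div_add_mod j M
        have h6 : j + 1 = M * (j / M) + (j % M + 1) := by omega
        rw [h6, Nat.mul_add_div hMpos, Nat.div_eq_of_lt e1, add_zero]
      rw [e2, e3]
      exact hqc _ _
  · intro t
    show dist (p ⌊t * (N : ℝ)⌋₊) (q (⌊t * ((N * M : ℕ) : ℝ)⌋₊ / M) (⌊t * ((N * M : ℕ) : ℝ)⌋₊ % M)) ≤ ε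
    have e : ⌊t * ((N * M : ℕ) : ℝ)⌋₊ / M = ⌊t * (N : ℝ)⌋₊ := by
      rw [← Nat.floor_div_natCast]
      congr 1
      have : (M : ℝ) ≠ 0 := by exact_mod_cast hMpos.ne'
      push_cast
      field_simp
    rw [e]
    exact hqd _ _

theorem F_unif {ε : ℝ} (hε : 0 ≤ ε) {x y : X} (s : ℕ × (ℕ → X)) (hs : Good ε x y s) :
    ∃ η > 0, ∀ t u : ℝ, 0 ≤ t → 0 ≤ u → dist t u < η → dist (F s t) (F s u) ≤ ε := by
  have hN : (0 : ℝ) < s.1 := by exact_mod_cast hs.1
  have main : ∀ t u : ℝ, 0 ≤ t → t ≤ u → u - t < 1 / s.1 → dist (F s t) (F s u) ≤ ε := by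
    intro t u ht htu hut
    have h1 : ⌊t * (s.1 : ℝ)⌋₊ ≤ ⌊u * (s.1 : ℝ)⌋₊ :=
      Nat.floor_le_floor (mul_le_mul_of_nonneg_right htu hN.le)
    have h2 : ⌊u * (s.1 : ℝ)⌋₊ ≤ ⌊t * (s.1 : ℝ)⌋₊ + 1 := by
      have h3 : u * (s.1 : ℝ) < t * s.1 + 1 := by
        rw [lt_div_iff₀ hN] at hut
        linarith
      have h4 := Nat.lt_floor_add_one (t * (s.1 : ℝ))
      have h5 : u * (s.1 : ℝ) < ((⌊t * (s.1 : ℝ)⌋₊ + 2 : ℕ) : ℝ) := by
        push_cast; linarith
      have h6 := (Nat.floor_lt (by positivity [le_trans ht htu])).2 h5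
      omega
    unfold F
    rcases Nat.lt_or_ge ⌊t * (s.1 : ℝ)⌋₊ ⌊u * (s.1 : ℝ)⌋₊ with h | h
    · have h3 : ⌊u * (s.1 : ℝ)⌋₊ = ⌊t * (s.1 : ℝ)⌋₊ + 1 := by omega
      rw [h3]
      exact (hs.2.2.2 _).dist_le
    · have h3 : ⌊u * (s.1 : ℝ)⌋₊ = ⌊t * (s.1 : ℝ)⌋₊ := by omega
      rw [h3, dist_self]
      exact hε
  refine ⟨1 / s.1, by positivity, fun t u ht hu htu => ?_⟩
  rw [Real.dist_eq] at htu
  rcases le_total t u with h | h
  · exact main t u ht h (by rw [abs_sub_comm] at htu; exact lt_of_le_of_lt (le_abs_self _) htu)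
  · rw [dist_comm]
    exact main u t hu h (lt_of_le_of_lt (le_abs_self _) htu)

theorem path_of_close [CompactSpace X] [LocallyConnectedSpace X] {c : ℝ} (hc : 0 < c) {x y : X}
    (h : Close c x y) : ∃ γ : Path x y, ∀ t, dist x (γ t) ≤ 3 * c := by
  have hpos : ∀ k : ℕ, 0 < c * (1 / 2 : ℝ) ^ k := fun k => by positivity
  have step : ∀ (k : ℕ) (s : ℕ × (ℕ → X)), Good (c * (1 / 2 : ℝ) ^ k) x y s →
      ∃ s', Good (c * (1 / 2 : ℝ) ^ (k + 1)) x y s' ∧
        ∀ t : ℝ, dist (F s t) (F s' t) ≤ c * (1 / 2 : ℝ) ^ k :=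
    fun k s hs => refine_step (hpos k).le (hpos (k + 1)) s hs
  have : Nonempty X := ⟨x⟩
  choose! g hg using step
  let s0 : ℕ × (ℕ → X) := (1, fun n => if n = 0 then x else y)
  let S : ℕ → ℕ × (ℕ → X) := fun k => Nat.rec s0 (fun k s => g k s) k
  have hS0 : S 0 = s0 := rfl
  have hSs : ∀ k, S (k + 1) = g k (S k) := fun k => rfl
  have hgood : ∀ k, Good (c * (1 / 2 : ℝ) ^ k) x y (S k) := by
    intro k
    induction k with
    | zero =>
      rw [hS0]
      refine ⟨Nat.one_pos, by simp [s0], ?_, ?_⟩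
      · intro j hj
        have : j ≠ 0 := by
          have : 1 ≤ j := hj
          omega
        simp [s0, this]
      · intro j
        by_cases hj : j = 0
        · subst hj
          simpa [s0] using h
        · simp only [s0, hj, if_false, Nat.succ_ne_zero]
          exact Close.refl (by positivity) y
    | succ k ih => rw [hSs]; exact (hg k _ ih).1
  have hdist : ∀ t k, dist (F (S k) t) (F (S (k + 1)) t) ≤ c * (1 / 2 : ℝ) ^ k := by
    intro t k
    rw [hSs]
    exact (hg k _ (hgood k)).2 t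
  have hlim : ∀ t, ∃ a, Tendsto (fun k => F (S k) t) atTop (𝓝 a) := fun t =>
    cauchySeq_tendsto_of_complete (cauchySeq_of_le_geometric (1 / 2) c (by norm_num) (hdist t))
  choose f hf using hlim
  have hle : ∀ t k, dist (F (S k) t) (f t) ≤ 2 * (c * (1 / 2 : ℝ) ^ k) := by
    intro t k
    have := dist_le_of_le_geometric_of_tendsto (1 / 2) c (by norm_num) (hdist t) (hf t) k
    calc _ ≤ _ := this
      _ = _ := by ring
  have hf0 : f 0 = x := by
    refine tendsto_nhds_unique (hf 0) ?_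
    have : (fun k => F (S k) 0) = fun _ => x := by
      funext k
      simp [F, (hgood k).2.1]
    rw [this]
    exact tendsto_const_nhds
  have hf1 : f 1 = y := by
    refine tendsto_nhds_unique (hf 1) ?_
    have : (fun k => F (S k) 1) = fun _ => y := by
      funext k
      have h1 := (hgood k).2.2.1 (S k).1 le_rfl
      simp [F, h1]
    rw [this]
    exact tendsto_const_nhds
  have hcont : Continuous (fun t : unitInterval => f (t : ℝ)) := by
    rw [Metric.continuous_iff]
    intro b ε hε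
    obtain ⟨k, hk⟩ := exists_pow_lt_of_lt_one (show 0 < ε / (5 * c) by positivity)
      (show (1 / 2 : ℝ) < 1 by norm_num)
    have hk' : 5 * (c * (1 / 2 : ℝ) ^ k) < ε := by
      rw [lt_div_iff₀ (by positivity)] at hk
      linarith
    obtain ⟨η, hη, hη2⟩ := F_unif (hpos k).le (S k) (hgood k)
    refine ⟨η, hη, fun a hab => ?_⟩
    have h1 := hη2 a b a.2.1 b.2.1 hab
    have h2 := hle a k
    have h3 := hle b k
    have h4 := dist_triangle4 (f a) (F (S k) a) (F (S k) b) (f b)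
    rw [dist_comm (f (a : ℝ)) (F (S k) a)] at h4
    linarith
  refine ⟨⟨⟨fun t : unitInterval => f (t : ℝ), hcont⟩, by simpa using hf0, by simpa using hf1⟩,
    fun t => ?_⟩
  show dist x (f (t : ℝ)) ≤ 3 * c
  have h1 := hle t 0
  have h2 : dist x (F (S 0) t) ≤ c := by
    rw [hS0]
    show dist x (if ⌊(t : ℝ) * ((1 : ℕ) : ℝ)⌋₊ = 0 then x else y) ≤ c
    split_ifs
    · simpa using hc.le
    · exact h.dist_le
  have h3 := dist_triangle x (F (S 0) t) (f t)
  simp only [pow_zero, mul_one] at h1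
  linarith

end PathAux

open PathAux in
theorem t_Path : StmPath := by
  intro X _ hX
  obtain ⟨h1, h2, h3, h4⟩ := hX
  let _ : MetricSpace X := TopologicalSpace.metrizableSpaceMetric X
  rw [locallyPathConnectedSpace_iff_pathComponentIn_mem_nhds]
  intro x u hu hxu
  obtain ⟨r, hr, hru⟩ := Metric.isOpen_iff.1 hu x hxu
  obtain ⟨δ, hδ, hU⟩ := unif (X := X) (r / 4) (by positivity)
  refine mem_of_superset (ball_mem_nhds x hδ) fun y hy => ?_
  have hxy : Close (r / 4) x y := hU x y (by rw [dist_comm]; exact hy)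
  obtain ⟨γ, hγ⟩ := path_of_close (by positivity) hxy
  refine ⟨γ, fun t => hru ?_⟩
  rw [mem_ball, dist_comm]
  exact lt_of_le_of_lt (hγ t) (by linarith)

end Pool.Agent.R638.DD
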