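import Pool.Agent.R638.DD.Stm

set_option autoImplicit false

namespace Pool.Agent.R638.DD

open Set Topology Filter

theorem Cut.symm {X : Type} [TopologicalSpace X] {A B : Set X} {c : X} (h : Cut A B c) :
    Cut B A c :=
  ⟨h.clB, h.clA, by rw [union_comm]; exact h.un, by rw [inter_comm]; exact h.inter⟩

theorem Cut.memA {X : Type} [TopologicalSpace X] {A B : Set X} {c : X} (h : Cut A B c) :
    c ∈ A := by
  have : c ∈ A ∩ B := by rw [h.inter]; rfl
  exact this.1

theorem Cut.memB {X : Type} [TopologicalSpace X] {A B : Set X} {c : X} (h : Cut A B c) :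
    c ∈ B := by
  have : c ∈ A ∩ B := by rw [h.inter]; rfl
  exact this.2

theorem Cut.eq {X : Type} [TopologicalSpace X] {A B : Set X} {c : X} (h : Cut A B c) {z : X}
    (h1 : z ∈ A) (h2 : z ∈ B) : z = c := by
  have : z ∈ A ∩ B := ⟨h1, h2⟩
  rw [h.inter] at this
  exact this

theorem Cut.or {X : Type} [TopologicalSpace X] {A B : Set X} {c : X} (h : Cut A B c) (z : X) :
    z ∈ A ∨ z ∈ B := by
  have : z ∈ A ∪ B := by rw [h.un]; trivial
  exact this

theorem comp_glueMap {ι Q T S : Type} {P : ι → Type} (x : ∀ i, P i) (e : ι → Q)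
    (g : Q → T) (h : ∀ i, P i → T) (f : T → S) :
    f ∘ glueMap x e g h = glueMap x e (f ∘ g) (fun i => f ∘ h i) := by
  funext t
  simp only [Function.comp, glueMap]
  split_ifs <;> rfl

section

variable {X Y : Type} [TopologicalSpace X] [MetricSpace Y] {f : X → Y} {b b' : X}

omit [MetricSpace Y] in
theorem SData.A_le (D : SData f b b') {m n : ℕ} (h : m ≤ n) : D.A n ⊆ D.A m :=
  antitone_nat_of_succ_le D.A_anti h

omit [MetricSpace Y] in
theorem SData.B_le (D : SData f b b') {m n : ℕ} (h : m ≤ n) : D.B m ⊆ D.B n :=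
  monotone_nat_of_le_succ D.B_mono h

omit [MetricSpace Y] in
theorem SData.LB (D : SData f b b') (n : ℕ) {z : X} (h1 : z ∈ D.L) (h2 : z ∈ D.B n) : False := by
  have := (D.cutn n).eq (D.L_sub n h1) h2
  exact D.s_notin n (this ▸ h1)

omit [MetricSpace Y] in
theorem SData.BM (D : SData f b b') (n : ℕ) {z : X} (h2 : z ∈ D.B n) : z ∈ D.M :=
  (D.cut.or z).resolve_left fun h => D.LB n h h2

end

theorem t_Surg (h1 : StmCut) (h2 : StmGlue) (h3 : StmGMap) (h4 : StmGPsi) : StmSurg := by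
  intro X Y _ _ f hX hf b b' hbb D
  have hmet := hX.metrizable
  have hcompact := hX.compact
  -- the pieces
  let PT : ℕ → Type := fun n => ↥{z : ↥(D.A n) | (z : X) ∈ D.B (n + 1)}
  have hPT : ∀ n, IsDen (PT n) := by
    intro n
    have hA : IsDen ↥(D.A n) := h1 X _ _ _ hX (D.cutn n)
    refine h1 ↥(D.A n) {z | (z : X) ∈ D.B (n + 1)} {z | (z : X) ∈ D.A (n + 1)}
      ⟨D.s (n + 1), D.A_anti n (D.cutn (n + 1)).memA⟩ hA ⟨?_, ?_, ?_, ?_⟩
    · exact (D.cutn (n + 1)).clB.preimage continuous_subtype_val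
    · exact (D.cutn (n + 1)).clA.preimage continuous_subtype_val
    · ext z
      simp only [mem_union, mem_ofPred_eq, mem_univ, iff_true]
      exact ((D.cutn (n + 1)).or z.1).symm
    · ext z
      simp only [mem_inter_iff, mem_ofPred_eq, mem_singleton_iff]
      constructor
      · rintro ⟨h, h'⟩
        exact Subtype.ext ((D.cutn (n + 1)).eq h' h)
      · rintro rfl
        exact ⟨(D.cutn (n + 1)).memB, (D.cutn (n + 1)).memA⟩
  have hL : IsDen ↥D.L := h1 X _ _ _ hX D.cut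
  have hB : IsDen ↥(D.B 0) := h1 X _ _ _ hX (D.cutn 0).symm
  -- the first gluing
  let x1 : ∀ _ : Unit, ↥(D.B 0) := fun _ => ⟨b', D.b'_mem 0⟩
  let e1 : Unit → ↥D.L := fun _ => ⟨b, D.b_mem⟩
  have hQ : IsDen (Glue x1 e1) := h2 Unit ↥D.L (fun _ => ↥(D.B 0)) x1 e1 hL (fun _ => hB)
  let g1 : ↥D.L → X := Subtype.val
  let k1 : ∀ _ : Unit, ↥(D.B 0) → X := fun _ => Subtype.val
  let ψ : Glue x1 e1 → X := glueMap x1 e1 g1 k1
  obtain ⟨hψi, hψr⟩ := h4 Unit ↥D.L X (fun _ => ↥(D.B 0)) x1 e1 g1 k1 Subtype.val_injective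
    (fun _ => Subtype.val_injective.injOn)
    (by
      rintro _ p - ⟨q, hq⟩
      exact D.LB 0 q.2 (by
        have : (q : X) = (p : X) := hq
        rw [this]; exact p.2))
    (by intro i j hij; exact absurd rfl hij)
  have hψr' : range ψ = D.L ∪ (D.B 0 \ {b'}) := by
    change range (glueMap x1 e1 g1 k1) = _
    rw [hψr]
    ext z
    simp only [mem_union, mem_range, mem_iUnion, mem_image, mem_compl_iff, mem_singleton_iff,
      Set.mem_sdiff, g1, k1, x1]
    constructor
    · rintro (⟨q, rfl⟩ | ⟨_, q, hq, rfl⟩)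
      · exact Or.inl q.2
      · exact Or.inr ⟨q.2, fun h => hq (Subtype.ext h)⟩
    · rintro (h | ⟨h, h'⟩)
      · exact Or.inl ⟨⟨z, h⟩, rfl⟩
      · exact Or.inr ⟨(), ⟨z, h⟩, fun h'' => h' (congrArg Subtype.val h''), rfl⟩
  have hψc : Continuous (f ∘ ψ) := by
    change Continuous (f ∘ glueMap x1 e1 g1 k1)
    rw [comp_glueMap]
    exact h3 Unit ↥D.L Y (fun _ => ↥(D.B 0)) x1 e1 (f ∘ g1) (fun i => f ∘ k1 i)
      (hf.comp continuous_subtype_val) (fun _ => hf.comp continuous_subtype_val)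
      (fun _ => hbb.symm) (fun ε _ => Set.toFinite _)
  -- the points of attachment
  have he : ∀ n, ∃ q : Glue x1 e1, f (ψ q) = f (D.e n) := by
    intro n
    have hr : ∀ z ∈ range ψ, f z = f (D.e n) → ∃ q : Glue x1 e1, f (ψ q) = f (D.e n) := by
      rintro _ ⟨q, rfl⟩ h
      exact ⟨q, h⟩
    by_cases hn : D.e n = b'
    · refine hr b ?_ (by rw [hn, hbb])
      rw [hψr']; exact Or.inl D.b_mem
    · refine hr (D.e n) ?_ rfl
      rw [hψr']
      rcases D.cut.or (D.e n) with h | h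
      · exact Or.inl h
      · refine Or.inr ⟨((D.cutn 0).or (D.e n)).resolve_left fun h' => D.e_notin n ⟨h', h⟩, hn⟩
  choose q hq using he
  -- the second gluing
  let x2 : ∀ n, PT n := fun n => ⟨⟨D.s n, (D.cutn n).memA⟩, D.B_mono n (D.cutn n).memB⟩
  let k2 : ∀ n, PT n → X := fun n z => z.1.1
  have hk2A : ∀ n (z : PT n), k2 n z ∈ D.A n := fun n z => z.1.2
  have hk2B : ∀ n (z : PT n), k2 n z ∈ D.B (n + 1) := fun n z => z.2
  have hk2i : ∀ n, Function.Injective (k2 n) := by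
    intro n z w h
    exact Subtype.ext (Subtype.ext h)
  have hk2x : ∀ n, k2 n (x2 n) = D.s n := fun n => rfl
  have hk2s : ∀ n (z : PT n), z ≠ x2 n → k2 n z ≠ D.s n := fun n z hz h => hz (hk2i n h)
  have hX' : IsDen (Glue x2 q) := h2 ℕ (Glue x1 e1) PT x2 q hQ hPT
  obtain ⟨hΨi, hΨr⟩ := h4 ℕ (Glue x1 e1) X PT x2 q ψ k2 hψi (fun n => (hk2i n).injOn)
    (by
      intro n z hz hzr
      rw [hψr'] at hzr
      rcases hzr with h | h
      · exact D.LB (n + 1) h (hk2B n z)
      · exact hk2s n z hz ((D.cutn n).eq (hk2A n z) (D.B_le (Nat.zero_le n) h.1)))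
    (by
      have key : ∀ i j, i < j → ∀ p : PT i, ∀ r : PT j, r ≠ x2 j → k2 i p ≠ k2 j r := by
        intro i j hij p r hr h
        apply hk2s j r hr
        refine (D.cutn j).eq (hk2A j r) ?_
        rw [← h]
        exact D.B_le hij (hk2B i p)
      intro i j hij p r hp hr
      rcases lt_or_gt_of_ne hij with h | h
      · exact key i j h p r hr
      · exact (key j i h r p hp).symm)
  refine ⟨Glue x2 q, inferInstance, glueMap x2 q ψ k2, hX', ?_, hΨi, ?_⟩
  · rw [comp_glueMap]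
    refine h3 ℕ (Glue x1 e1) Y PT x2 q (f ∘ ψ) (fun i => f ∘ k2 i) hψc
      (fun n => hf.comp (continuous_subtype_val.comp continuous_subtype_val)) ?_ ?_
    · intro n
      change f (D.s n) = f (ψ (q n))
      rw [hq n, D.e_eq n]
    · intro ε hε
      have hO : f ⁻¹' (Metric.ball (f D.c) (ε / 2)) ∈ 𝓝 D.c :=
        hf.continuousAt.preimage_mem_nhds (Metric.ball_mem_nhds _ (by linarith))
      obtain ⟨N, hN⟩ := eventually_atTop.1 (D.shrink _ hO)
      refine (Set.finite_lt_nat N).subset ?_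
      rintro n ⟨p, hp⟩
      by_contra hn
      have hn' : N ≤ n := not_lt.1 hn
      have a1 : k2 n p ∈ f ⁻¹' (Metric.ball (f D.c) (ε / 2)) :=
        hN n hn' ⟨hk2A n p, D.BM (n + 1) (hk2B n p)⟩
      have a2 : D.s n ∈ f ⁻¹' (Metric.ball (f D.c) (ε / 2)) :=
        hN n hn' ⟨(D.cutn n).memA, D.BM n (D.cutn n).memB⟩
      have a1' : dist (f (k2 n p)) (f D.c) < ε / 2 := a1
      have a2' : dist (f (D.s n)) (f D.c) < ε / 2 := a2
      have a3 : ε ≤ dist (f (k2 n p)) (f (D.s n)) := hp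
      have := dist_triangle_right (f (k2 n p)) (f (D.s n)) (f D.c)
      linarith
  · rw [hΨr, hψr']
    ext z
    simp only [mem_union, mem_iUnion, mem_image, mem_compl_iff, mem_singleton_iff, Set.mem_sdiff]
    constructor
    · rintro ((h | h) | ⟨n, w, hw, rfl⟩)
      · rintro rfl
        exact D.LB 0 h (D.b'_mem 0)
      · exact h.2
      · intro h
        have hb : k2 n w = b' := h
        have hb2 : k2 n w ∈ D.B n := by rw [hb]; exact D.b'_mem n
        exact hk2s n w hw ((D.cutn n).eq (hk2A n w) hb2)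
    · intro hz
      by_cases hzL : z ∈ D.L
      · exact Or.inl (Or.inl hzL)
      by_cases hzB : z ∈ D.B 0
      · exact Or.inl (Or.inr ⟨hzB, hz⟩)
      right
      have hzM : z ∈ D.M := (D.cut.or z).resolve_left hzL
      have hzc : z ≠ D.c := fun h => hzL (h ▸ D.cut.memA)
      have hO : ({z}ᶜ : Set X) ∈ 𝓝 D.c := isOpen_compl_singleton.mem_nhds (fun h => hzc h.symm)
      obtain ⟨N, hN⟩ := eventually_atTop.1 (D.shrink _ hO)
      have hex : ∃ n, z ∈ D.B n := by
        refine ⟨N, ((D.cutn N).or z).resolve_left fun h => ?_⟩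
        exact hN N le_rfl ⟨h, hzM⟩ rfl
      classical
      obtain ⟨m, hm, hmin⟩ : ∃ m, z ∈ D.B m ∧ ∀ j < m, z ∉ D.B j :=
        ⟨Nat.find hex, Nat.find_spec hex, fun j hj => Nat.find_min hex hj⟩
      obtain ⟨k, rfl⟩ : ∃ k, m = k + 1 := by
        cases m with
        | zero => exact absurd hm hzB
        | succ k => exact ⟨k, rfl⟩
      have hk : z ∉ D.B k := hmin k (Nat.lt_succ_self k)
      have hkA : z ∈ D.A k := ((D.cutn k).or z).resolve_right hk
      refine ⟨k, ⟨⟨z, hkA⟩, hm⟩, ?_, rfl⟩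
      intro h
      have : z = D.s k := congrArg (fun w : PT k => w.1.1) h
      exact hk (this ▸ (D.cutn k).memB)

end Pool.Agent.R638.DD
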