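import Pool.Agent.R638.DD.Stm

set_option autoImplicit false

namespace Pool.Agent.R638.DD

open Set Topology Filter

namespace SeqAux

theorem iso_countable {X : Type} [TopologicalSpace X] [SecondCountableTopology X] (S : Set X) :
    {c | c ∈ S ∧ c ∉ closure (S \ {c})}.Countable := by
  have h : {c | c ∈ S ∧ c ∉ closure (S \ {c})} ⊆
      ⋃ U ∈ TopologicalSpace.countableBasis X, {c | U ∩ S = {c}} := by
    rintro c ⟨hc, hc2⟩
    have ho : IsOpen (closure (S \ {c}))ᶜ := isClosed_closure.isOpen_compl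
    obtain ⟨U, hU, hcU, hUs⟩ :=
      (TopologicalSpace.isBasis_countableBasis X).exists_subset_of_mem_open (a := c) hc2 ho
    simp only [mem_iUnion]
    refine ⟨U, hU, ?_⟩
    show U ∩ S = {c}
    ext x
    constructor
    · rintro ⟨hx1, hx2⟩
      by_contra hne
      exact hUs hx1 (subset_closure ⟨hx2, hne⟩)
    · rintro rfl
      exact ⟨hcU, hc⟩
  refine Countable.mono h ?_
  refine (TopologicalSpace.countable_countableBasis X).biUnion (fun U _ => ?_)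
  apply Set.Subsingleton.countable
  intro x hx y hy
  have hx' : U ∩ S = {x} := hx
  have hy' : U ∩ S = {y} := hy
  exact singleton_injective (hx'.symm.trans hy')

theorem btw_symm {X : Type} [TopologicalSpace X] (u v : X) : Btw u v = Btw v u := by
  ext x
  exact ⟨fun h C hC h1 h2 => h C hC h2 h1, fun h C hC h1 h2 => h C hC h2 h1⟩

theorem data {X Y : Type} [MetricSpace X] [MetricSpace Y] (f : X → Y) (hX : IsPeano X)
    (h2 : StmComp) (h3 : StmShr) (b b' c : X) (hc : c ∈ Btw b b')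
    (hcb' : c ≠ b') (ε : ℝ) (hε : 0 < ε)
    (hT : c ∈ closure {z | z ∈ Btw b b' ∧ z ∈ connectedComponentIn {c}ᶜ b' ∧
      ∃ z1 z2, f z1 = f z ∧ f z2 = f z ∧ ε ≤ dist z1 z2}) : Nonempty (SData f b b') := by
  have := hX.compact
  obtain ⟨hWo, hcut, hLc, hMc⟩ := h2 X hX c b' (Ne.symm hcb')
  obtain ⟨W, hW⟩ : ∃ W : Set X, W = connectedComponentIn {c}ᶜ b' := ⟨_, rfl⟩
  have hWsub : W ⊆ {c}ᶜ := by rw [hW]; exact connectedComponentIn_subset _ _
  have hb'W : b' ∈ W := by rw [hW]; exact mem_connectedComponentIn (Ne.symm hcb')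
  have hWpre : IsPreconnected W := by rw [hW]; exact isPreconnected_connectedComponentIn
  rw [← hW] at hWo hcut hLc hMc hT
  have hbL : b ∈ Wᶜ := fun hb => hWsub (hc W hWpre hb hb'W) rfl
  obtain ⟨Wc, hWc⟩ : ∃ Wc : X → Set X, ∀ s, Wc s = connectedComponentIn {s}ᶜ b' :=
    ⟨fun s => connectedComponentIn {s}ᶜ b', fun s => rfl⟩
  obtain ⟨T, hTd⟩ : ∃ T : Set X, T = {z | z ∈ Btw b b' ∧ z ∈ W ∧ z ≠ b' ∧
      ∃ z1 z2, f z1 = f z ∧ f z2 = f z ∧ ε ≤ dist z1 z2} := ⟨_, rfl⟩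
  have hmemT : ∀ z ∈ T, z ∈ W ∧ ∃ z1 z2, f z1 = f z ∧ f z2 = f z ∧ ε ≤ dist z1 z2 := by
    intro z hz
    rw [hTd] at hz
    exact ⟨hz.2.1, hz.2.2.2⟩
  have hT' : c ∈ closure T := by
    rw [mem_closure_iff]
    intro O hO hcO
    rw [mem_closure_iff] at hT
    obtain ⟨z, ⟨hz1, hz2⟩, hz3, hz4, hz5⟩ := hT (O ∩ {b'}ᶜ) (hO.inter isOpen_compl_singleton)
      ⟨hcO, hcb'⟩
    refine ⟨z, hz1, ?_⟩
    rw [hTd]
    exact ⟨hz3, hz4, hz2, hz5⟩
  have key : ∀ s ∈ T, Cut (Wc s)ᶜ (Wc s ∪ {s}) s ∧ IsPreconnected (Wc s ∪ {s}) ∧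
      Wᶜ ⊆ (Wc s)ᶜ ∧ b' ∈ Wc s := by
    intro s hs
    rw [hTd] at hs
    obtain ⟨hs1, hs2, hs3, -⟩ := hs
    obtain ⟨-, hk1, -, hk2⟩ := h2 X hX s b' (Ne.symm hs3)
    rw [← hWc] at hk1 hk2
    have hb's : b' ∈ Wc s := by rw [hWc]; exact mem_connectedComponentIn (Ne.symm hs3)
    refine ⟨hk1, hk2, ?_, hb's⟩
    intro y hy hyW
    -- `L` is connected, misses `s`, meets `Wc s`
    have hsub : Wᶜ ⊆ connectedComponentIn {s}ᶜ y :=
      hLc.subset_connectedComponentIn hy (fun z hz hzs => hz (by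
        rw [mem_singleton_iff] at hzs
        rw [hzs]; exact hs2))
    have he : connectedComponentIn {s}ᶜ y = Wc s := by
      rw [hWc] at hyW ⊢
      exact (connectedComponentIn_eq hyW).symm
    have hb : b ∈ Wc s := by rw [← he]; exact hsub hbL
    have hsW : s ∈ Wc s := by
      refine hs1 (Wc s) ?_ hb hb's
      rw [hWc]
      exact isPreconnected_connectedComponentIn
    rw [hWc] at hsW
    exact connectedComponentIn_subset _ _ hsW rfl
  have nest : ∀ s ∈ T, ∀ t ∈ T, t ∉ Wc s ∪ {s} → Wc s ∪ {s} ⊆ Wc t := by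
    intro s hs t ht hts
    obtain ⟨-, h5, -, h6⟩ := key s hs
    rw [hWc t]
    refine h5.subset_connectedComponentIn (Or.inl h6) (fun z hz hzt => hts ?_)
    rw [mem_singleton_iff] at hzt
    rw [← hzt]; exact hz
  have hcB : ∀ s ∈ T, c ∉ Wc s ∪ {s} := by
    intro s hs hcs
    obtain ⟨h5, -, h6, -⟩ := key s hs
    have h7 : c ∈ (Wc s)ᶜ := h6 (fun h => hWsub h rfl)
    have h8 : c ∈ ({s} : Set X) := by
      rw [← h5.inter]
      exact ⟨h7, hcs⟩
    rw [mem_singleton_iff] at h8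
    rw [hTd] at hs
    exact hWsub hs.2.1 h8.symm
  -- the sequence
  have step : ∀ (n : ℕ) (x : T), ∃ y : T, (y : X) ∉ Wc x ∪ {(x : X)} ∧
      dist (y : X) c < 1 / ((n : ℝ) + 1) := by
    intro n x
    rw [mem_closure_iff] at hT'
    have ho : IsOpen ((Wc x ∪ {(x : X)})ᶜ ∩ Metric.ball c (1 / ((n : ℝ) + 1))) :=
      (key x x.2).1.clB.isOpen_compl.inter Metric.isOpen_ball
    obtain ⟨y, ⟨hy1, hy2⟩, hy3⟩ := hT' _ ho ⟨hcB x x.2, Metric.mem_ball_self (by positivity)⟩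
    exact ⟨⟨y, hy3⟩, hy1, hy2⟩
  have hTne : T.Nonempty := by
    rw [mem_closure_iff] at hT'
    obtain ⟨y, -, hy⟩ := hT' univ isOpen_univ (mem_univ _)
    exact ⟨y, hy⟩
  obtain ⟨x0, hx0⟩ := hTne
  choose F hF1 hF2 using step
  obtain ⟨s, hs0, hsS⟩ : ∃ s : ℕ → T, s 0 = ⟨x0, hx0⟩ ∧ ∀ n, s (n + 1) = F n (s n) :=
    ⟨fun n => Nat.rec ⟨x0, hx0⟩ (fun n x => F n x) n, rfl, fun n => rfl⟩
  have hs1 : ∀ n, (s (n + 1) : X) ∉ Wc (s n) ∪ {(s n : X)} := by
    intro n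
    rw [hsS]
    exact hF1 n (s n)
  have hs2 : ∀ n, dist (s (n + 1) : X) c < 1 / ((n : ℝ) + 1) := by
    intro n
    rw [hsS]
    exact hF2 n (s n)
  have hlim : Tendsto (fun n => (s n : X)) atTop (𝓝 c) := by
    rw [← tendsto_add_atTop_iff_nat 1, tendsto_iff_dist_tendsto_zero]
    refine squeeze_zero (fun n => dist_nonneg) (fun n => (hs2 n).le) ?_
    exact tendsto_one_div_add_atTop_nhds_zero_nat
  have shrink : ∀ O ∈ 𝓝 c, ∀ᶠ n in atTop, (Wc (s n))ᶜ ∩ (W ∪ {c}) ⊆ O := by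
    intro O hO
    obtain ⟨O', hO'O, hO'o, hcO'⟩ := mem_nhds_iff.1 hO
    have hC1 : (W ∪ {c}) \ O' ∪ {b'} ⊆ W := by
      rintro z (⟨hz1 | hz1, hz2⟩ | hz)
      · exact hz1
      · rw [mem_singleton_iff] at hz1
        rw [hz1] at hz2
        exact absurd hcO' hz2
      · rw [mem_singleton_iff] at hz
        rw [hz]; exact hb'W
    have hC2 : IsCompact ((W ∪ {c}) \ O' ∪ {b'}) :=
      ((hcut.clB.sdiff hO'o).isCompact).union isCompact_singleton
    obtain ⟨K, hKW, hKc, hKp, hCK⟩ := h3 X hX W hWo hWpre _ hC1 hC2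
    have hcK : c ∉ K := fun h => hWsub (hKW h) rfl
    have hev : ∀ᶠ n in atTop, (s n : X) ∈ Kᶜ := hlim (hKc.isOpen_compl.mem_nhds hcK)
    filter_upwards [hev] with n hn
    rintro z ⟨hz1, hz2⟩
    by_contra hzO
    have hzK : z ∈ K := hCK (Or.inl ⟨hz2, fun h => hzO (hO'O h)⟩)
    have hKs : K ⊆ Wc (s n) := by
      rw [hWc]
      refine hKp.subset_connectedComponentIn (hCK (Or.inr rfl)) (fun w hw hws => hn ?_)
      rw [mem_singleton_iff] at hws
      rw [← hws]; exact hw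
    exact hz1 (hKs hzK)
  -- the points `e`
  have hee : ∀ n, ∃ e : X, f e = f (s n) ∧ ε / 2 ≤ dist e c := by
    intro n
    obtain ⟨-, z1, z2, hz1, hz2, hz3⟩ := hmemT _ (s n).2
    by_contra hcon
    push Not at hcon
    have e1 := hcon z1 hz1
    have e2 := hcon z2 hz2
    have := dist_triangle_right z1 z2 c
    linarith
  choose e he1 he2 using hee
  obtain ⟨N, hN⟩ := (shrink _ (Metric.ball_mem_nhds c (half_pos hε))).exists
  refine ⟨{ c := c, L := Wᶜ, M := W ∪ {c}, cut := hcut, A := fun n => (Wc (s (n + N)))ᶜ,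
            B := fun n => Wc (s (n + N)) ∪ {(s (n + N) : X)}, s := fun n => s (n + N),
            e := fun n => e (n + N), cutn := fun n => (key _ (s (n + N)).2).1,
            A_anti := ?_, B_mono := ?_, L_sub := fun n => (key _ (s (n + N)).2).2.2.1,
            s_notin := ?_, b_mem := hbL, b'_mem := fun n => Or.inl (key _ (s (n + N)).2).2.2.2,
            shrink := ?_, e_eq := fun n => he1 (n + N), e_notin := ?_ }⟩
  · intro n
    have h7 := nest _ (s (n + N)).2 _ (s (n + N + 1)).2 (hs1 (n + N))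
    have h8 : n + 1 + N = n + N + 1 := by omega
    show (Wc (s (n + 1 + N)))ᶜ ⊆ (Wc (s (n + N)))ᶜ
    rw [h8]
    exact compl_subset_compl.2 (subset_union_left.trans h7)
  · intro n
    have h7 := nest _ (s (n + N)).2 _ (s (n + N + 1)).2 (hs1 (n + N))
    have h8 : n + 1 + N = n + N + 1 := by omega
    show Wc (s (n + N)) ∪ {(s (n + N) : X)} ⊆ Wc (s (n + 1 + N)) ∪ {(s (n + 1 + N) : X)}
    rw [h8]
    exact h7.trans subset_union_left
  · intro n hn
    exact hn (hmemT _ (s (n + N)).2).1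
  · intro O hO
    exact (tendsto_add_atTop_nat N).eventually (shrink O hO)
  · intro n hn
    have h9 := hN (by simpa using hn)
    rw [Metric.mem_ball] at h9
    have := he2 (n + N)
    linarith

end SeqAux

open SeqAux

theorem t_Seq (h1 : StmUnc) (h2 : StmComp) (h3 : StmShr) (_h4 : StmMeet) : StmSeq := by
  intro X Y tX mY f hX _hf hfib a a' hne
  have hmet := hX.metrizable
  obtain ⟨m, hm⟩ : ∃ m : MetricSpace X,
      m.toPseudoMetricSpace.toUniformSpace.toTopologicalSpace = tX :=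
    ⟨TopologicalSpace.metrizableSpaceMetric X, rfl⟩
  subst hm
  have := hX.compact
  have hP : IsPeano X := hX.toIsPeano
  let Dn : ℕ → Set X := fun n => {z | z ∈ Btw a a' ∧
    ∃ z1 z2, f z1 = f z ∧ f z2 = f z ∧ 1 / ((n : ℝ) + 1) ≤ dist z1 z2}
  have hS : ((⋃ n, {c | c ∈ Dn n ∧ c ∉ closure (Dn n \ {c})}) ∪ {a, a'}).Countable :=
    (countable_iUnion (fun n => iso_countable (Dn n))).union (by simp)
  obtain ⟨c, hc, hcS⟩ := h1 X hX a a' hne _ hS
  have hca : c ≠ a := fun h => hcS (Or.inr (by rw [h]; simp))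
  have hca' : c ≠ a' := fun h => hcS (Or.inr (by rw [h]; simp))
  obtain ⟨n, hn⟩ : ∃ n : ℕ, c ∈ Dn n := by
    obtain ⟨z', hz1, hz2⟩ := hfib c
    obtain ⟨n, hn⟩ := exists_nat_one_div_lt (dist_pos.2 hz1)
    exact ⟨n, hc, z', c, hz2, rfl, hn.le⟩
  have hcl : c ∈ closure (Dn n \ {c}) := by
    by_contra hcon
    exact hcS (Or.inl (mem_iUnion.2 ⟨n, hn, hcon⟩))
  have hpos : 0 < 1 / ((n : ℝ) + 1) := by positivity
  obtain ⟨-, -, -, hMa⟩ := h2 X hP c a (Ne.symm hca)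
  obtain ⟨-, -, -, hMa'⟩ := h2 X hP c a' (Ne.symm hca')
  have hsub : Dn n \ {c} ⊆ {z | z ∈ Btw a' a ∧ z ∈ connectedComponentIn {c}ᶜ a ∧
      ∃ z1 z2, f z1 = f z ∧ f z2 = f z ∧ 1 / ((n : ℝ) + 1) ≤ dist z1 z2} ∪
      {z | z ∈ Btw a a' ∧ z ∈ connectedComponentIn {c}ᶜ a' ∧
      ∃ z1 z2, f z1 = f z ∧ f z2 = f z ∧ 1 / ((n : ℝ) + 1) ≤ dist z1 z2} := by
    rintro z ⟨⟨hz1, hz2⟩, hz3⟩
    have hu : IsPreconnected ((connectedComponentIn {c}ᶜ a ∪ {c}) ∪
        (connectedComponentIn {c}ᶜ a' ∪ {c})) :=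
      IsPreconnected.union c (Or.inr rfl) (Or.inr rfl) hMa hMa'
    have hz := hz1 _ hu (Or.inl (Or.inl (mem_connectedComponentIn (Ne.symm hca))))
      (Or.inr (Or.inl (mem_connectedComponentIn (Ne.symm hca'))))
    rcases hz with (hz | hz) | (hz | hz)
    · exact Or.inl ⟨by rw [btw_symm]; exact hz1, hz, hz2⟩
    · exact absurd hz hz3
    · exact Or.inr ⟨hz1, hz, hz2⟩
    · exact absurd hz hz3
  have hcl2 := closure_mono hsub hcl
  rw [closure_union] at hcl2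
  rcases hcl2 with h | h
  · right
    exact data f hP h2 h3 a' a c (by rw [btw_symm]; exact hc) hca _ hpos h
  · left
    exact data f hP h2 h3 a a' c hc hca' _ hpos h

end Pool.Agent.R638.DD
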