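import Pool.Agent.R638.DD.Stm

set_option autoImplicit false

/-! Project DD: piece SHR. -/

namespace Pool.Agent.R638.DD

open Set Topology Filter

theorem t_Shr : StmShr := by
  intro X _ hX W hW hWc C hCW hC
  have := hX.compact
  have := hX.metrizable
  have := hX.connected
  have := hX.locConn
  rcases C.eq_empty_or_nonempty with hne | ⟨x0, hx0⟩
  · refine ⟨∅, empty_subset _, isClosed_empty, isPreconnected_empty, ?_⟩
    rw [hne]
  have hsmall : ∀ w ∈ W, ∃ N : Set X, IsOpen N ∧ w ∈ N ∧ IsPreconnected N ∧ closure N ⊆ W := by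
    intro w hw
    obtain ⟨V, hV, hVc, hVW⟩ := exists_mem_nhds_isClosed_subset (hW.mem_nhds hw)
    refine ⟨connectedComponentIn (interior V) w, isOpen_interior.connectedComponentIn,
      mem_connectedComponentIn (mem_interior_iff_mem_nhds.2 hV),
      isPreconnected_connectedComponentIn, ?_⟩
    exact (closure_minimal ((connectedComponentIn_subset _ _).trans interior_subset) hVc).trans hVW
  let G : Set X := {y | ∃ K : Set X, K ⊆ W ∧ IsClosed K ∧ IsPreconnected K ∧ x0 ∈ K ∧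
    y ∈ interior K}
  have hGo : IsOpen G := by
    rw [isOpen_iff_mem_nhds]
    rintro y ⟨K, h1, h2, h3, h4, h5⟩
    exact mem_of_superset (isOpen_interior.mem_nhds h5) (fun z hz => ⟨K, h1, h2, h3, h4, hz⟩)
  have hstep : ∀ N : Set X, IsOpen N → IsPreconnected N → closure N ⊆ W → (N ∩ G).Nonempty →
      N ⊆ G := by
    rintro N hN hNp hNW ⟨y, hyN, K, h1, h2, h3, h4, h5⟩ z hz
    refine ⟨K ∪ closure N, union_subset h1 hNW, h2.union isClosed_closure,
      IsPreconnected.union y (interior_subset h5) (subset_closure hyN) h3 hNp.closure,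
      Or.inl h4, ?_⟩
    exact interior_maximal (subset_closure.trans subset_union_right) hN hz
  have hx0G : x0 ∈ G := by
    obtain ⟨N, hN, hxN, hNp, hNW⟩ := hsmall x0 (hCW hx0)
    exact ⟨closure N, hNW, isClosed_closure, hNp.closure, subset_closure hxN,
      interior_maximal subset_closure hN hxN⟩
  let H : Set X := {w | w ∈ W ∧ w ∉ G}
  have hHo : IsOpen H := by
    rw [isOpen_iff_mem_nhds]
    rintro w ⟨hwW, hwG⟩
    obtain ⟨N, hN, hwN, hNp, hNW⟩ := hsmall w hwW
    refine mem_of_superset (hN.mem_nhds hwN) ?_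
    intro z hz
    refine ⟨hNW (subset_closure hz), fun hzG => hwG ?_⟩
    exact hstep N hN hNp hNW ⟨z, hz, hzG⟩ hwN
  have hWG : W ⊆ G := by
    intro w hw
    by_contra hwG
    obtain ⟨z, -, hz1, hz2⟩ := hWc G H hGo hHo (fun z hz => by
      by_cases h : z ∈ G
      · exact Or.inl h
      · exact Or.inr ⟨hz, h⟩) ⟨x0, hCW hx0, hx0G⟩ ⟨w, hw, hw, hwG⟩
    exact hz2.2 hz1
  obtain ⟨K, h1, h2, h3, -, h5⟩ : ∃ K : Set X, K ⊆ W ∧ IsClosed K ∧ IsPreconnected K ∧ x0 ∈ K ∧
      C ⊆ K := by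
    refine hC.induction_on (p := fun s => ∃ K : Set X, K ⊆ W ∧ IsClosed K ∧ IsPreconnected K ∧
      x0 ∈ K ∧ s ⊆ K) ?_ ?_ ?_ ?_
    · refine ⟨{x0}, by simpa using hCW hx0, isClosed_singleton, isPreconnected_singleton, rfl,
        empty_subset _⟩
    · rintro s t hst ⟨K, h1, h2, h3, h4, h5⟩
      exact ⟨K, h1, h2, h3, h4, hst.trans h5⟩
    · rintro s t ⟨K, h1, h2, h3, h4, h5⟩ ⟨K', h1', h2', h3', h4', h5'⟩
      exact ⟨K ∪ K', union_subset h1 h1', h2.union h2', IsPreconnected.union x0 h4 h4' h3 h3',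
        Or.inl h4, union_subset_union h5 h5'⟩
    · intro x hx
      obtain ⟨K, h1, h2, h3, h4, h5⟩ := hWG (hCW hx)
      exact ⟨K, mem_nhdsWithin_of_mem_nhds (mem_interior_iff_mem_nhds.1 h5),
        K, h1, h2, h3, h4, le_refl _⟩
  exact ⟨K, h1, h2, h3, h5⟩

end Pool.Agent.R638.DD
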