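import Pool.Agent.R638.DD.Stm

set_option autoImplicit false

/-! DD-THIRD (helper886): a Peano continuum without simple closed curves has the third point
property. -/

namespace Pool.Agent.R638.DD

open Set Topology Filter

namespace ThirdAux

/-- Two arcs with the same end points and otherwise disjoint form a simple closed curve. -/
theorem circle_of_arcs {X : Type} [TopologicalSpace X] (f g : ℝ → X) (hf : Continuous f)
    (hg : Continuous g) {a0 a1 b0 b1 : ℝ} (ha : a0 < a1) (hb : b0 < b1)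
    (hfi : InjOn f (Icc a0 a1)) (hgi : InjOn g (Icc b0 b1)) (h0 : f a0 = g b0) (h1 : f a1 = g b1)
    (hd : ∀ s ∈ Ioo b0 b1, ∀ r ∈ Icc a0 a1, f r ≠ g s) :
    ∃ c : Circle → X, Continuous c ∧ Function.Injective c := by
  let F : ℝ → X := fun s => if s ≤ 1 then f (a0 + s * (a1 - a0)) else g (b1 + (s - 1) * (b0 - b1))
  have hF : Continuous F := by
    apply Continuous.if_le (by fun_prop) (by fun_prop) continuous_id continuous_const
    intro s hs
    subst hs
    have e1 : a0 + (1 : ℝ) * (a1 - a0) = a1 := by ring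
    have e2 : b1 + ((1 : ℝ) - 1) * (b0 - b1) = b1 := by ring
    rw [e1, e2, h1]
  have hF0 : F 0 = F (0 + 2) := by
    have e0 : F 0 = f a0 := by
      simp only [F]; rw [if_pos (by norm_num)]; congr 1; ring
    have e2 : F (0 + 2) = g b0 := by
      simp only [F]; rw [if_neg (by norm_num)]; congr 1; ring
    rw [e0, e2, h0]
  have hinj : ∀ s ∈ Ico (0 : ℝ) (0 + 2), ∀ s' ∈ Ico (0 : ℝ) (0 + 2), s ≤ s' → F s = F s' →
      s = s' := by
    intro s hs s' hs' hle he
    have hA : ∀ r : ℝ, 0 ≤ r → r ≤ 1 → a0 + r * (a1 - a0) ∈ Icc a0 a1 := by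
      intro r h1 h2
      constructor <;> nlinarith
    have hB : ∀ r : ℝ, 1 < r → r < 2 → b1 + (r - 1) * (b0 - b1) ∈ Ioo b0 b1 := by
      intro r h1 h2
      constructor <;> nlinarith
    simp only [mem_Ico, zero_add] at hs hs'
    by_cases h1' : s' ≤ 1
    · have h1 : s ≤ 1 := hle.trans h1'
      simp only [F, if_pos h1, if_pos h1'] at he
      have := hfi (hA s hs.1 h1) (hA s' hs'.1 h1') he
      have h3 : (s - s') * (a1 - a0) = 0 := by linarith
      rcases mul_eq_zero.1 h3 with h4 | h4 <;> linarith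
    · by_cases h1 : s ≤ 1
      · exfalso
        simp only [F, if_pos h1, if_neg h1'] at he
        exact hd _ (hB s' (not_le.1 h1') hs'.2) _ (hA s hs.1 h1) he
      · simp only [F, if_neg h1, if_neg h1'] at he
        have := hgi (Ioo_subset_Icc_self (hB s (not_le.1 h1) hs.2))
          (Ioo_subset_Icc_self (hB s' (not_le.1 h1') hs'.2)) he
        have h3 : (s - s') * (b0 - b1) = 0 := by linarith
        rcases mul_eq_zero.1 h3 with h4 | h4 <;> linarith
  have : Fact ((0 : ℝ) < 2) := ⟨by norm_num⟩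
  let L : AddCircle (2 : ℝ) → X := AddCircle.liftIco 2 0 F
  have hL : Continuous L := AddCircle.liftIco_continuous hF0 hF.continuousOn
  have hLi : Function.Injective L := by
    intro p q hpq
    have e1 : L p = F (AddCircle.equivIco 2 0 p) := rfl
    have e2 : L q = F (AddCircle.equivIco 2 0 q) := rfl
    rw [e1, e2] at hpq
    apply (AddCircle.equivIco (2 : ℝ) 0).injective
    apply Subtype.ext
    rcases le_total ((AddCircle.equivIco (2 : ℝ) 0 p : ℝ)) (AddCircle.equivIco (2 : ℝ) 0 q : ℝ)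
      with h | h
    · exact hinj _ (AddCircle.equivIco (2 : ℝ) 0 p).2 _ (AddCircle.equivIco (2 : ℝ) 0 q).2 h hpq
    · exact (hinj _ (AddCircle.equivIco (2 : ℝ) 0 q).2 _ (AddCircle.equivIco (2 : ℝ) 0 p).2 h
        hpq.symm).symm
  exact ⟨L ∘ (AddCircle.homeomorphCircle (T := 2) two_ne_zero).symm,
    hL.comp (AddCircle.homeomorphCircle (T := 2) two_ne_zero).symm.continuous,
    hLi.comp (AddCircle.homeomorphCircle (T := 2) two_ne_zero).symm.injective⟩

/-- Two injective paths with the same ends, the second one avoiding the middle point of the first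
one, give a simple closed curve. -/
theorem circle_of_paths {X : Type} [TopologicalSpace X] [T2Space X] (f g : ℝ → X)
    (hf : Continuous f) (hg : Continuous g) (hfi : InjOn f (Icc 0 1)) (hgi : InjOn g (Icc 0 1))
    (h0 : f 0 = g 0) (h1 : f 1 = g 1) (hd : ∀ s ∈ Icc (0 : ℝ) 1, g s ≠ f (1 / 2)) :
    ∃ c : Circle → X, Continuous c ∧ Function.Injective c := by
  have hK1 : IsClosed (f '' Icc (1 / 2) 1) := (isCompact_Icc.image hf).isClosed
  have hK0 : IsClosed (f '' Icc 0 (1 / 2)) := (isCompact_Icc.image hf).isClosed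
  -- first point of `g` in `f '' [1/2, 1]`
  have hS1 : IsCompact (Icc (0 : ℝ) 1 ∩ g ⁻¹' (f '' Icc (1 / 2) 1)) :=
    isCompact_Icc.inter_right (hK1.preimage hg)
  have hne1 : (Icc (0 : ℝ) 1 ∩ g ⁻¹' (f '' Icc (1 / 2) 1)).Nonempty :=
    ⟨1, ⟨by norm_num, ⟨1, by norm_num, h1⟩⟩⟩
  obtain ⟨b1, ⟨hb1, ⟨a1, ha1, hab1⟩⟩, hmin⟩ := hS1.exists_isLeast hne1
  -- last point of `g` before `b1` in `f '' [0, 1/2]`
  have hS0 : IsCompact (Icc (0 : ℝ) b1 ∩ g ⁻¹' (f '' Icc 0 (1 / 2))) :=
    isCompact_Icc.inter_right (hK0.preimage hg)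
  have hne0 : (Icc (0 : ℝ) b1 ∩ g ⁻¹' (f '' Icc 0 (1 / 2))).Nonempty :=
    ⟨0, ⟨⟨le_rfl, hb1.1⟩, ⟨0, by norm_num, h0⟩⟩⟩
  obtain ⟨b0, ⟨hb0, ⟨a0, ha0, hab0⟩⟩, hmax⟩ := hS0.exists_isGreatest hne0
  have ha1' : 1 / 2 < a1 := by
    rcases ha1.1.lt_or_eq with h | h
    · exact h
    · exfalso; apply hd b1 hb1; rw [h, hab1]
  have ha0' : a0 < 1 / 2 := by
    rcases ha0.2.lt_or_eq with h | h
    · exact h
    · exfalso; apply hd b0 ⟨hb0.1, hb0.2.trans hb1.2⟩; rw [← h, hab0]
  have hbb : b0 < b1 := by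
    rcases hb0.2.lt_or_eq with h | h
    · exact h
    · exfalso
      rw [h, ← hab1] at hab0
      have := hfi ⟨ha0.1, by linarith⟩ ⟨by linarith, ha1.2⟩ hab0
      linarith
  refine circle_of_arcs f g hf hg (a0 := a0) (a1 := a1) (b0 := b0) (b1 := b1) (by linarith) hbb
    (hfi.mono (Icc_subset_Icc ha0.1 ha1.2)) (hgi.mono (Icc_subset_Icc hb0.1 hb1.2)) hab0 hab1 ?_
  intro s hs r hr he
  rcases le_total r (1 / 2) with h | h
  · have := hmax ⟨⟨hb0.1.trans hs.1.le, hs.2.le⟩, ⟨r, ⟨ha0.1.trans hr.1, h⟩, he⟩⟩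
    exact absurd this (not_le.2 hs.1)
  · have := hmin ⟨⟨hb0.1.trans hs.1.le, hs.2.le.trans hb1.2⟩, ⟨r, ⟨h, hr.2.trans ha1.2⟩, he⟩⟩
    exact absurd this (not_le.2 hs.2)

theorem injOn_extend {X : Type} [TopologicalSpace X] {u v : X} (γ : Path u v)
    (h : Function.Injective γ) : InjOn γ.extend (Icc 0 1) := by
  intro s hs s' hs' he
  rw [Path.extend_apply γ hs, Path.extend_apply γ hs'] at he
  exact congrArg Subtype.val (h he)

end ThirdAux

open ThirdAux in
theorem t_Third (h1 : StmPath) (h2 : StmPArc) (h3 : StmComp) : StmThird := by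
  intro X _ hX u v huv
  have := hX.compact
  have := hX.metrizable
  have := hX.connected
  have := hX.locConn
  have : LocallyPathConnectedSpace X := h1 X hX.toIsPeano
  have : PathConnectedSpace X := pathConnectedSpace_iff_connectedSpace.2 inferInstance
  obtain ⟨α, hα, -⟩ := h2 X u v huv (PathConnectedSpace.somePath u v)
  have hhalf : ((1 : ℝ) / 2) ∈ Icc (0 : ℝ) 1 := by norm_num
  have hαi := injOn_extend α hα
  set t : X := α.extend (1 / 2) with ht
  have htu : u ≠ t := by
    intro h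
    have h4 : α.extend 0 = α.extend (1 / 2) := by rw [Path.extend_zero]; exact h
    have := hαi (by norm_num) hhalf h4
    norm_num at this
  have htv : v ≠ t := by
    intro h
    have h4 : α.extend 1 = α.extend (1 / 2) := by rw [Path.extend_one]; exact h
    have := hαi (by norm_num) hhalf h4
    norm_num at this
  obtain ⟨hGo, hcut, -, -⟩ := h3 X hX.toIsPeano t u htu
  set G : Set X := connectedComponentIn {t}ᶜ u with hG
  have huG : u ∈ G := mem_connectedComponentIn htu
  have hGsub : G ⊆ {t}ᶜ := connectedComponentIn_subset _ _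
  have hvG : v ∉ G := by
    intro hv
    have hGc : IsConnected G := isConnected_connectedComponentIn_iff.2 htu
    have hGp : IsPathConnected G := hGo.isConnected_iff_isPathConnected.1 hGc
    have hj : JoinedIn G u v := hGp.joinedIn u huG v hv
    obtain ⟨β, hβ, hβr⟩ := h2 X u v huv hj.somePath
    have hβi := injOn_extend β hβ
    obtain ⟨c, hc, hci⟩ := circle_of_paths α.extend β.extend α.continuous_extend
      β.continuous_extend hαi hβi (by simp) (by simp) (by
        intro s hs he
        rw [Path.extend_apply β hs] at he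
        obtain ⟨s', hs'⟩ := hβr (mem_range_self (⟨s, hs⟩ : unitInterval))
        have h5 : β ⟨s, hs⟩ ∈ G := by rw [← hs']; exact hj.somePath_mem s'
        have h6 := hGsub h5
        rw [he] at h6
        exact h6 rfl)
    exact hX.noCircle c hc hci
  refine ⟨t, G, (G ∪ {t})ᶜ, hGo, hcut.clB.isOpen_compl, ?_, ?_, huG, ?_⟩
  · rw [disjoint_compl_right_iff_subset]
    exact subset_union_left
  · ext x
    simp only [mem_union, mem_compl_iff, mem_singleton_iff, not_or]
    constructor
    · rintro (h | h)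
      · exact hGsub h
      · exact h.2
    · intro h
      by_cases hx : x ∈ G
      · exact Or.inl hx
      · exact Or.inr ⟨hx, h⟩
  · simp only [mem_compl_iff, mem_union, mem_singleton_iff, not_or]
    exact ⟨hvG, htv⟩

end Pool.Agent.R638.DD
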