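import Pool.Agent.R638.DD.Stm

set_option autoImplicit false

/-! Project DD: piece UNC. -/

namespace Pool.Agent.R638.DD

open Set Topology Filter

theorem unc_closed (h2 : StmShr) {X : Type} [TopologicalSpace X] (hX : IsPeano X) (a b : X) :
    IsClosed (Btw a b) := by
  have := hX.compact
  have := hX.metrizable
  have := hX.connected
  have := hX.locConn
  rw [← isOpen_compl_iff, isOpen_iff_mem_nhds]
  intro c hc
  have hc' : ¬ ∀ C : Set X, IsPreconnected C → a ∈ C → b ∈ C → c ∈ C := hc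
  push Not at hc'
  obtain ⟨C, hC, ha, hb, hcC⟩ := hc'
  have hCs : C ⊆ {c}ᶜ := by
    intro x hx h
    rw [mem_singleton_iff] at h
    exact hcC (h ▸ hx)
  have hCW : C ⊆ connectedComponentIn {c}ᶜ a := hC.subset_connectedComponentIn ha hCs
  obtain ⟨K, hKW, hKc, hKp, habK⟩ := h2 X hX (connectedComponentIn {c}ᶜ a)
    (isOpen_compl_singleton.connectedComponentIn) isPreconnected_connectedComponentIn {a, b}
    (by
      rintro x (rfl | hx)
      · exact hCW ha
      · rw [mem_singleton_iff] at hx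
        rw [hx]
        exact hCW hb) (Set.toFinite _).isCompact
  have hcK : c ∉ K := fun h => connectedComponentIn_subset _ _ (hKW h) rfl
  filter_upwards [hKc.isOpen_compl.mem_nhds hcK] with y hy hyE
  exact hy (hyE K hKp (habK (by simp)) (habK (by simp)))

theorem unc_lin (h1 : StmComp) {X : Type} [TopologicalSpace X] (hX : IsPeano X) {u v x y : X}
    (hx : x ∈ Btw u v) (hy : y ∈ Btw u v) : x ∈ Btw u y ∨ y ∈ Btw u x := by
  by_contra hcon
  push Not at hcon
  obtain ⟨hc1, hc2⟩ := hcon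
  have hc1' : ¬ ∀ C : Set X, IsPreconnected C → u ∈ C → y ∈ C → x ∈ C := hc1
  have hc2' : ¬ ∀ C : Set X, IsPreconnected C → u ∈ C → x ∈ C → y ∈ C := hc2
  push Not at hc1' hc2'
  obtain ⟨C1, hC1, hu1, hy1, hx1⟩ := hc1'
  obtain ⟨C2, hC2, hu2, hx2, hy2⟩ := hc2'
  have hux : u ≠ x := fun h => hx1 (h ▸ hu1)
  obtain ⟨-, -, hWc, -⟩ := h1 X hX x u hux
  have hC1W : C1 ⊆ connectedComponentIn {x}ᶜ u := by
    refine hC1.subset_connectedComponentIn hu1 ?_
    intro z hz h
    rw [mem_singleton_iff] at h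
    exact hx1 (h ▸ hz)
  have huW : u ∈ connectedComponentIn {x}ᶜ u := hC1W hu1
  have hxW : x ∉ connectedComponentIn {x}ᶜ u := fun h => connectedComponentIn_subset _ _ h rfl
  have hvW : v ∉ connectedComponentIn {x}ᶜ u := fun h =>
    hxW (hx _ isPreconnected_connectedComponentIn huW h)
  have hU : IsPreconnected (C2 ∪ (connectedComponentIn {x}ᶜ u)ᶜ) :=
    IsPreconnected.union x hx2 hxW hC2 hWc
  rcases hy _ hU (Or.inl hu2) (Or.inr hvW) with h | h
  · exact hy2 h
  · exact h (hC1W hy1)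

theorem unc_anti (h1 : StmComp) {X : Type} [TopologicalSpace X] (hX : IsPeano X) {c t t0 : X}
    (ht : t ∈ Btw c t0) (ht0 : t0 ∈ Btw c t) : t = t0 := by
  by_cases htc : t = c
  · have h := ht0 {c} isPreconnected_singleton rfl (by rw [htc]; rfl)
    rw [mem_singleton_iff] at h
    rw [htc, h]
  · have hct : c ≠ t := fun h => htc h.symm
    obtain ⟨-, -, -, hA⟩ := h1 X hX t c hct
    have hcA : c ∈ connectedComponentIn {t}ᶜ c :=
      mem_connectedComponentIn hct
    have htA : t ∉ connectedComponentIn {t}ᶜ c := fun h => connectedComponentIn_subset _ _ h rfl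
    have h0A : t0 ∉ connectedComponentIn {t}ᶜ c := fun h =>
      htA (ht _ isPreconnected_connectedComponentIn hcA h)
    rcases ht0 _ hA (Or.inl hcA) (Or.inr rfl) with h | h
    · exact absurd h h0A
    · rw [mem_singleton_iff] at h
      exact h.symm

theorem unc_sub {X : Type} [TopologicalSpace X] {a b c : X} (hc : c ∈ Btw a b) :
    Btw c b ⊆ Btw a b := fun _ ht C hC ha hb => ht C hC (hc C hC ha hb) hb

theorem unc_sub' {X : Type} [TopologicalSpace X] {a b c : X} (hc : c ∈ Btw a b) :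
    Btw a c ⊆ Btw a b := fun _ ht C hC ha hb => ht C hC ha (hc C hC ha hb)

theorem unc_symm {X : Type} [TopologicalSpace X] (a b : X) : Btw a b = Btw b a := by
  ext x
  exact ⟨fun h C hC hb ha => h C hC ha hb, fun h C hC ha hb => h C hC hb ha⟩

theorem unc_right {X : Type} [TopologicalSpace X] (a b : X) : b ∈ Btw a b := fun _ _ _ hb => hb

theorem unc_iso (h1 : StmComp) (h2 : StmShr) {X : Type} [TopologicalSpace X] (hX : IsDen X)
    {a b c : X} (hc : c ∈ Btw a b) (hcb : c ≠ b) (O : Set X) (hO : IsOpen O) (hcO : c ∈ O)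
    (hE : ∀ z ∈ Btw a b, z ∈ O → z = c) : False := by
  have hP : IsPeano X := hX.toIsPeano
  have := hP.compact
  have := hP.metrizable
  have := hP.connected
  have := hP.locConn
  have hbO : b ∉ O := fun h => hcb (hE b (unc_right a b) h).symm
  let F : Set X := Btw c b \ O
  have hbF : b ∈ F := ⟨unc_right c b, hbO⟩
  have hne : Nonempty F := ⟨⟨b, hbF⟩⟩
  have hdir : Directed (· ⊇ ·) (fun t : F => Btw c (t : X) \ O) := by
    intro t t'
    rcases unc_lin h1 hP t.2.1 t'.2.1 with h | h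
    · refine ⟨t, le_refl _, ?_⟩
      exact diff_subset_diff_left (unc_sub' h)
    · refine ⟨t', ?_, le_refl _⟩
      exact diff_subset_diff_left (unc_sub' h)
  obtain ⟨t0, ht0⟩ := IsCompact.nonempty_iInter_of_directed_nonempty_isCompact_isClosed
    (fun t : F => Btw c (t : X) \ O) hdir (fun t => ⟨t, unc_right _ _, t.2.2⟩)
    (fun t => ((unc_closed h2 hP c t).sdiff hO).isCompact)
    (fun t => (unc_closed h2 hP c t).sdiff hO)
  rw [mem_iInter] at ht0
  have ht0F : t0 ∈ F := ht0 ⟨b, hbF⟩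
  have hsub : ∀ t ∈ Btw c t0, t = c ∨ t = t0 := by
    intro t ht
    by_cases htO : t ∈ O
    · exact Or.inl (hE t (unc_sub hc (unc_sub' ht0F.1 ht)) htO)
    · right
      have htF : t ∈ F := ⟨unc_sub' ht0F.1 ht, htO⟩
      exact unc_anti h1 hP ht (ht0 ⟨t, htF⟩).1
  have hct0 : c ≠ t0 := fun h => ht0F.2 (h ▸ hcO)
  obtain ⟨r, A, B, hA, hB, hAB, hU, hcA, htB⟩ := hX.third c t0 hct0
  have hrB : r ∈ Btw c t0 := by
    intro C hC hc1 hc2
    by_contra hr
    have hsubC : C ⊆ A ∪ B := by
      rw [hU]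
      intro z hz h
      rw [mem_singleton_iff] at h
      exact hr (h ▸ hz)
    obtain ⟨z, -, hz1, hz2⟩ := hC A B hA hB hsubC ⟨c, hc1, hcA⟩ ⟨t0, hc2, htB⟩
    exact disjoint_left.1 hAB hz1 hz2
  rcases hsub r hrB with h | h
  · have : c ∈ A ∪ B := Or.inl hcA
    rw [hU] at this
    exact this h.symm
  · have : t0 ∈ A ∪ B := Or.inr htB
    rw [hU] at this
    exact this h.symm

theorem unc_perfect (h1 : StmComp) (h2 : StmShr) {X : Type} [TopologicalSpace X] (hX : IsDen X)
    {a b : X} (hab : a ≠ b) : Perfect (Btw a b) := by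
  refine ⟨unc_closed h2 hX.toIsPeano a b, ?_⟩
  intro c hc
  rw [accPt_iff_nhds]
  intro O hO
  obtain ⟨V, hVO, hV, hcV⟩ := mem_nhds_iff.1 hO
  by_contra hcon
  push Not at hcon
  have hE : ∀ z ∈ Btw a b, z ∈ V → z = c := fun z hz hzV => hcon z ⟨hVO hzV, hz⟩
  by_cases hcb : c = b
  · have hca : c ≠ a := fun h => hab (h.symm.trans hcb)
    rw [unc_symm] at hc hE
    exact unc_iso h1 h2 hX hc hca V hV hcV hE
  · exact unc_iso h1 h2 hX hc hcb V hV hcV hE

theorem t_Unc (h1 : StmComp) (h2 : StmShr) : StmUnc := by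
  intro X _ hX a b hab S hS
  have := hX.compact
  have := hX.metrizable
  by_contra hcon
  push Not at hcon
  have hcount : (Btw a b).Countable := hS.mono hcon
  have hperf : Perfect (Btw a b) := unc_perfect h1 h2 hX hab
  let _ : MetricSpace X := TopologicalSpace.metrizableSpaceMetric X
  obtain ⟨f, hf, -, hfi⟩ := hperf.exists_nat_bool_injection ⟨b, unc_right a b⟩
  have h1 : (range f).Countable := hcount.mono hf
  have h1' : Countable (range f) := h1.to_subtype
  have h2 : Countable (ℕ → Bool) :=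
    Function.Injective.countable (f := rangeFactorization f) (rangeFactorization_injective.2 hfi)
  have h4 : Cardinal.mk (ℕ → Bool) ≤ Cardinal.aleph0 := Cardinal.mk_le_aleph0_iff.2 h2
  have h5 : Cardinal.mk (ℕ → Bool) = Cardinal.continuum := by
    clear h4 h2
    simp
  rw [h5] at h4
  exact absurd h4 (not_le.2 Cardinal.aleph0_lt_continuum)

end Pool.Agent.R638.DD
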